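import Mathlib

/-!
# THEOREM SOLV (MP_576eff_lc): the subgroups `oo M l` and the series `nx`

`oo M l` is the largest normal subgroup `W` over `M` for which the index of `M` in `W` is prime to `l`; `nx M` is a normal subgroup over `M`
(larger than `M` if `M` is not the whole group) such that the index of `M` in `nx M` is a power of a prime (chosen; it exists in solvable groups).
-/

set_option autoImplicit false

open scoped commutatorElement

namespace Pool.Agent.H79.SL

variable {G : Type} [Group G]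

/-- the largest normal subgroup over `M` whose index over `M` is prime to `l` -/
def oo (M : Subgroup G) (l : ℕ) : Subgroup G :=
  sSup {W : Subgroup G | W.Normal ∧ M ≤ W ∧ (M.relIndex W).Coprime l}

open Classical in
/-- the next term of a series with factors of prime power order -/
noncomputable def nx (M : Subgroup G) : Subgroup G :=
  if h : ∃ V : Subgroup G, V.Normal ∧ M < V ∧ ∃ p k : ℕ, p.Prime ∧ M.relIndex V = p ^ k then h.choose else ⊤

theorem oo_max {M W : Subgroup G} {l : ℕ} (hW : W.Normal) (h : M ≤ W) (hc : (M.relIndex W).Coprime l) : W ≤ oo M l :=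
  le_sSup ⟨hW, h, hc⟩

theorem le_oo {M : Subgroup G} (hM : M.Normal) (l : ℕ) : M ≤ oo M l :=
  oo_max hM le_rfl (by rw [Subgroup.relIndex_self]; exact Nat.coprime_one_left l)

theorem nx_top : nx (⊤ : Subgroup G) = ⊤ := by
  rw [nx, dif_neg]
  rintro ⟨V, _, h, _⟩
  exact absurd h (not_lt_of_ge le_top)

private theorem rel_sup {M W : Subgroup G} (hW : W.Normal) (h : M ≤ W) (K : Subgroup G) :
    W.relIndex (K ⊔ W) ∣ M.relIndex K := by
  rw [Subgroup.relIndex_sup_right]
  exact Subgroup.relIndex_dvd_of_le_left K h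

theorem oo_mem [Finite G] {M : Subgroup G} (hM : M.Normal) (l : ℕ) :
    (oo M l).Normal ∧ M ≤ oo M l ∧ (M.relIndex (oo M l)).Coprime l := by
  have hne : ({W : Subgroup G | W.Normal ∧ M ≤ W ∧ (M.relIndex W).Coprime l}).Nonempty :=
    ⟨M, hM, le_rfl, by rw [Subgroup.relIndex_self]; exact Nat.coprime_one_left l⟩
  obtain ⟨m, hm⟩ := (Set.toFinite {W : Subgroup G | W.Normal ∧ M ≤ W ∧ (M.relIndex W).Coprime l}).exists_maximal hne
  have hm1 : m.Normal ∧ M ≤ m ∧ (M.relIndex m).Coprime l := hm.1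
  have h1 : oo M l = m := by
    refine le_antisymm (sSup_le fun W hW => ?_) (le_sSup hm.1)
    have hW1 : W.Normal ∧ M ≤ W ∧ (M.relIndex W).Coprime l := hW
    have hn : (W ⊔ m).Normal := by
      have := hm1.1
      have := hW1.1
      exact Subgroup.sup_normal W m
    have h2 : W ⊔ m ∈ {W : Subgroup G | W.Normal ∧ M ≤ W ∧ (M.relIndex W).Coprime l} := by
      refine ⟨hn, hW1.2.1.trans le_sup_left, ?_⟩
      rw [← Subgroup.relIndex_mul_relIndex M m (W ⊔ m) hm1.2.1 le_sup_right]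
      exact Nat.Coprime.mul_left hm1.2.2 (Nat.Coprime.coprime_dvd_left (rel_sup hm1.1 hm1.2.1 W) hW1.2.2)
    exact le_sup_left.trans (hm.2 h2 le_sup_right)
  rw [h1]
  exact hm1

theorem oo_normal [Finite G] {M : Subgroup G} (hM : M.Normal) (l : ℕ) : (oo M l).Normal := (oo_mem hM l).1

theorem oo_cop [Finite G] {M : Subgroup G} (hM : M.Normal) (l : ℕ) : (M.relIndex (oo M l)).Coprime l := (oo_mem hM l).2.2

theorem oo_mono [Finite G] {M M' : Subgroup G} (hM : M.Normal) (hM' : M'.Normal) (h : M ≤ M') (l : ℕ) :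
    oo M l ≤ oo M' l := by
  have hn : (oo M l ⊔ M').Normal := by
    have := oo_normal hM l
    exact Subgroup.sup_normal (oo M l) M'
  exact le_sup_left.trans (oo_max hn le_sup_right
    (Nat.Coprime.coprime_dvd_left (rel_sup hM' h (oo M l)) (oo_cop hM l)))

/-- a normal subgroup whose index over `M` is prime to `t` -/
theorem oo_eq [Finite G] {M V : Subgroup G} (hM : M.Normal) (hV : V.Normal) (h : M ≤ V) {t : ℕ}
    (hc : (M.relIndex V).Coprime t) : oo V t = oo M t := by
  refine le_antisymm (oo_max (oo_normal hV t) (h.trans (le_oo hV t)) ?_) (oo_mono hM hV h t)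
  rw [← Subgroup.relIndex_mul_relIndex M V (oo V t) h (le_oo hV t)]
  exact Nat.Coprime.mul_left hc (oo_cop hV t)

theorem oo_idem [Finite G] {M : Subgroup G} (hM : M.Normal) (l : ℕ) : oo (oo M l) l = oo M l :=
  oo_eq hM (oo_normal hM l) (le_oo hM l) (oo_cop hM l)

/-- a normal subgroup of order prime to `l` over a normal subgroup of order prime to `l` -/
theorem oo_inf [Finite G] {N : Subgroup G} (hN : N.Normal) (l : ℕ) : oo (oo ⊥ l ⊓ N) l = oo ⊥ l := by
  have := oo_normal (G := G) (M := ⊥) inferInstance l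
  refine oo_eq inferInstance inferInstance bot_le ?_
  exact Nat.Coprime.coprime_dvd_left (Subgroup.relIndex_dvd_of_le_left _ le_rfl |>.trans
    (by
      rw [Subgroup.relIndex_bot_left, Subgroup.relIndex_bot_left]
      exact Subgroup.card_dvd_of_le inf_le_left)) (oo_cop (G := G) (M := ⊥) inferInstance l)

private theorem rel_comap (M : Subgroup G) [M.Normal] (K : Subgroup G) :
    M.relIndex K = Nat.card (K.map (QuotientGroup.mk' M)) := by
  have h := Subgroup.relIndex_comap (⊥ : Subgroup (G ⧸ M)) (QuotientGroup.mk' M) K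
  rw [Subgroup.relIndex_bot_left] at h
  rw [← h, MonoidHom.comap_bot, QuotientGroup.ker_mk']

private theorem nx_ex [Finite G] [Group.IsSolvable G] {M : Subgroup G} (hM : M.Normal) (h : M ≠ ⊤) :
    ∃ V : Subgroup G, V.Normal ∧ M < V ∧ ∃ p k : ℕ, p.Prime ∧ M.relIndex V = p ^ k := by
  classical
  have hQ : Group.IsSolvable (G ⧸ M) := inferInstance
  obtain ⟨n, hn⟩ := (Group.isSolvable_def (G ⧸ M)).1 hQ
  have hnt : derivedSeries (G ⧸ M) 0 ≠ ⊥ := by
    rw [derivedSeries_zero]
    intro h1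
    apply h
    rw [eq_top_iff]
    intro x _
    have h2 : (QuotientGroup.mk' M x) ∈ (⊥ : Subgroup (G ⧸ M)) := by
      rw [← h1]
      exact Subgroup.mem_top _
    exact (QuotientGroup.eq_one_iff x).1 (Subgroup.mem_bot.1 h2)
  obtain ⟨i, hi1, hi2⟩ : ∃ i, derivedSeries (G ⧸ M) i ≠ ⊥ ∧ derivedSeries (G ⧸ M) (i + 1) = ⊥ := by
    by_contra hcon
    push Not at hcon
    have : ∀ i, derivedSeries (G ⧸ M) i ≠ ⊥ := by
      intro i
      induction i with
      | zero => exact hnt
      | succ i ih => exact hcon i ih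
    exact this n hn
  have hcomm : ∀ x ∈ derivedSeries (G ⧸ M) i, ∀ y ∈ derivedSeries (G ⧸ M) i, x * y = y * x := by
    intro x hx y hy
    rw [derivedSeries_succ] at hi2
    have h1 : ⁅x, y⁆ ∈ ⁅derivedSeries (G ⧸ M) i, derivedSeries (G ⧸ M) i⁆ := Subgroup.commutator_mem_commutator hx hy
    rw [hi2, Subgroup.mem_bot, commutatorElement_eq_one_iff_mul_comm] at h1
    exact h1
  have hnorm : (derivedSeries (G ⧸ M) i).Normal := derivedSeries_normal (G ⧸ M) i
  have hcard : Nat.card (derivedSeries (G ⧸ M) i) ≠ 1 := by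
    intro h1
    exact hi1 ((Subgroup.card_eq_one).1 h1)
  obtain ⟨p, hp, hpd⟩ := Nat.exists_prime_and_dvd hcard
  have : Fact p.Prime := ⟨hp⟩
  let S : Subgroup (G ⧸ M) :=
    { carrier := {x | x ∈ derivedSeries (G ⧸ M) i ∧ x ^ p = 1}
      mul_mem' := by
        rintro x y ⟨hx, hx'⟩ ⟨hy, hy'⟩
        refine ⟨mul_mem hx hy, ?_⟩
        have hc : Commute x y := hcomm x hx y hy
        rw [hc.mul_pow, hx', hy', one_mul]
      one_mem' := ⟨one_mem _, one_pow _⟩
      inv_mem' := by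
        rintro x ⟨hx, hx'⟩
        exact ⟨inv_mem hx, by rw [inv_pow, hx', inv_one]⟩ }
  have hSn : S.Normal := by
    constructor
    rintro x ⟨hx, hx'⟩ g
    exact ⟨hnorm.conj_mem x hx g, by rw [conj_pow, hx', mul_one, mul_inv_cancel]⟩
  have hSp : IsPGroup p S := by
    rintro ⟨x, hx, hx'⟩
    refine ⟨1, ?_⟩
    rw [pow_one]
    exact Subtype.ext hx'
  obtain ⟨k, hk⟩ := IsPGroup.iff_card.1 hSp
  have hS1 : S ≠ ⊥ := by
    intro h1
    obtain ⟨x, hx⟩ := exists_prime_orderOf_dvd_card' (G := derivedSeries (G ⧸ M) i) p hpd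
    have h2 : (x : G ⧸ M) ∈ S := ⟨x.2, by
      have h3 := pow_orderOf_eq_one x
      rw [hx] at h3
      have h4 := congrArg (Subtype.val) h3
      simpa using h4⟩
    rw [h1, Subgroup.mem_bot] at h2
    have h3 : x = 1 := Subtype.ext h2
    rw [h3, orderOf_one] at hx
    exact hp.one_lt.ne hx
  have hmap : (S.comap (QuotientGroup.mk' M)).map (QuotientGroup.mk' M) = S :=
    Subgroup.map_comap_eq_self_of_surjective (QuotientGroup.mk'_surjective M) S
  refine ⟨S.comap (QuotientGroup.mk' M), hSn.comap _, ?_, p, k, hp, ?_⟩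
  · refine lt_of_le_of_ne ?_ ?_
    · intro x hx
      rw [Subgroup.mem_comap]
      have : QuotientGroup.mk' M x = 1 := (QuotientGroup.eq_one_iff x).2 hx
      rw [this]
      exact one_mem _
    · intro h1
      apply hS1
      rw [← hmap, ← h1]
      rw [Subgroup.map_eq_bot_iff, QuotientGroup.ker_mk']
  · rw [rel_comap, hmap, hk]

theorem nx_spec [Finite G] [Group.IsSolvable G] {M : Subgroup G} (hM : M.Normal) (h : M ≠ ⊤) :
    (nx M).Normal ∧ M < nx M ∧ ∃ p k : ℕ, p.Prime ∧ M.relIndex (nx M) = p ^ k := by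
  have h1 := nx_ex hM h
  rw [nx, dif_pos h1]
  exact h1.choose_spec

theorem nx_normal [Finite G] [Group.IsSolvable G] {M : Subgroup G} (hM : M.Normal) : (nx M).Normal := by
  by_cases h : M = ⊤
  · subst h
    rw [nx_top]
    exact hM
  · exact (nx_spec hM h).1

theorem le_nx [Finite G] [Group.IsSolvable G] {M : Subgroup G} (hM : M.Normal) : M ≤ nx M := by
  by_cases h : M = ⊤
  · subst h
    rw [nx_top]
  · exact (nx_spec hM h).2.1.le

/-- the index over `M` of the next term is a power of a prime which divides the order of the group -/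
theorem nx_prime [Finite G] [Group.IsSolvable G] {M : Subgroup G} (hM : M.Normal) (h : M ≠ ⊤) :
    ∃ p k : ℕ, p.Prime ∧ p ∣ Nat.card G ∧ M.relIndex (nx M) = p ^ k := by
  obtain ⟨_, h2, p, k, hp, hk⟩ := nx_spec hM h
  refine ⟨p, k, hp, ?_, hk⟩
  have h3 : k ≠ 0 := by
    rintro rfl
    rw [pow_zero, Subgroup.relIndex_eq_one] at hk
    exact absurd h2 (not_lt_of_ge hk)
  have h4 : M.relIndex (nx M) ∣ Nat.card G := by
    exact (Subgroup.relIndex_dvd_card M (nx M)).trans (Subgroup.card_subgroup_dvd_card (nx M))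
  rw [hk] at h4
  exact (dvd_pow_self p h3).trans h4

/-- the exponent in the narrow proof of `LG` -/
theorem pow_ex [Finite G] {X V0 V1 : Subgroup G} (hX : X.Normal) (h0 : V0.Normal) (h1 : V1.Normal) (hX0 : X ≤ V0)
    {p k : ℕ} (hi : V0.relIndex V1 = p ^ k) {g b c : G} (hb : g⁻¹ * b ∈ V1) (hc : g⁻¹ * c ∈ oo X p) :
    ∃ e : ℕ, g⁻¹ * (b * (c⁻¹ * b) ^ e) ∈ V0 := by
  have hA : Nat.Coprime (Nat.card ((oo X p).map (QuotientGroup.mk' V0))) p := by
    rw [← rel_comap]
    exact Nat.Coprime.coprime_dvd_left (Subgroup.relIndex_dvd_of_le_left _ hX0) (oo_cop hX p)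
  have hB : Nat.card (V1.map (QuotientGroup.mk' V0)) = p ^ k := by
    rw [← rel_comap, hi]
  have hAB : Nat.Coprime (Nat.card ((oo X p).map (QuotientGroup.mk' V0))) (Nat.card (V1.map (QuotientGroup.mk' V0))) := by
    rw [hB]
    exact Nat.Coprime.pow_right k hA
  have hAn : ((oo X p).map (QuotientGroup.mk' V0)).Normal :=
    (oo_normal hX p).map _ (QuotientGroup.mk'_surjective V0)
  have hBn : (V1.map (QuotientGroup.mk' V0)).Normal := h1.map _ (QuotientGroup.mk'_surjective V0)
  have hw : QuotientGroup.mk' V0 (g⁻¹ * c) ∈ (oo X p).map (QuotientGroup.mk' V0) := Subgroup.mem_map_of_mem _ hc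
  have hm : QuotientGroup.mk' V0 (g⁻¹ * b) ∈ V1.map (QuotientGroup.mk' V0) := Subgroup.mem_map_of_mem _ hb
  have hcm : Commute (QuotientGroup.mk' V0 (g⁻¹ * c)) (QuotientGroup.mk' V0 (g⁻¹ * b)) :=
    Subgroup.commute_of_normal_of_disjoint _ _ hAn hBn
      (Subgroup.disjoint_of_coprime_natCard hAB) _ _ hw hm
  obtain ⟨e, he1, he2⟩ := Nat.chineseRemainder hAB 0 (Nat.card (V1.map (QuotientGroup.mk' V0)) - 1)
  have hq : 0 < Nat.card (V1.map (QuotientGroup.mk' V0)) := Nat.card_pos
  have hwe : (QuotientGroup.mk' V0 (g⁻¹ * c)) ^ e = 1 := by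
    have h3 : Nat.card ((oo X p).map (QuotientGroup.mk' V0)) ∣ e := (Nat.modEq_zero_iff_dvd).1 he1
    exact orderOf_dvd_iff_pow_eq_one.1 ((Subgroup.orderOf_dvd_natCard _ hw).trans h3)
  have hme : (QuotientGroup.mk' V0 (g⁻¹ * b)) ^ (e + 1) = 1 := by
    have h3 : Nat.card (V1.map (QuotientGroup.mk' V0)) ∣ e + 1 := by
      have h4 := he2.add_right 1
      rw [Nat.sub_add_cancel hq] at h4
      exact (Nat.modEq_zero_iff_dvd).1 (h4.trans (by
        rw [Nat.modEq_zero_iff_dvd]))
    exact orderOf_dvd_iff_pow_eq_one.1 ((Subgroup.orderOf_dvd_natCard _ hm).trans h3)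
  refine ⟨e, ?_⟩
  rw [← QuotientGroup.eq_one_iff, ← QuotientGroup.mk'_apply]
  have h5 : g⁻¹ * (b * (c⁻¹ * b) ^ e) = (g⁻¹ * b) * ((g⁻¹ * c)⁻¹ * (g⁻¹ * b)) ^ e := by
    rw [mul_inv_rev, inv_inv, mul_assoc c⁻¹ g, mul_inv_cancel_left, mul_assoc]
  rw [h5, map_mul (QuotientGroup.mk' V0) (g⁻¹ * b), map_pow, map_mul (QuotientGroup.mk' V0) (g⁻¹ * c)⁻¹,
    map_inv (QuotientGroup.mk' V0) (g⁻¹ * c), (hcm.inv_left).mul_pow, inv_pow, hwe, inv_one, one_mul, ← pow_succ', hme]

end Pool.Agent.H79.SL
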