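import Pool.Agent.H29.NS.Nar
import Pool.Agent.H79.SL.Oo

/-!
# THEOREM SOLV (MP_576eff_lc): the local data of one stage

`Loc T C G`: `G` a finite group, `LL` the primes, `MM` normal subgroups with nodes `Y M g` (constant on the cosets of `M`: the coset of `g` is
allowed), `RR` normal subgroups `X` with nodes `bb l X g` (no element `be l h`, `h ∈ g X`, is allowed) and `Z M X g` (no `Y M h`, `h ∈ g X`).
`I1`, `I2`, `I3`: the components `be l` are closed under `x y⁻¹ z`, pairwise compatible, nonempty.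
-/

set_option autoImplicit false

open Set

namespace Pool.Agent.H79.SL

open Pool.Agent.H42.CS Pool.Agent.H29.NS

/-- the local data of one stage; `pr l`, `l : ι`: the primes -/
structure Loc {Rel : ℕ → Type} {P : Type} (T : Set (Ax Rel)) (C : Circuit Rel P) (G : Type) [Group G] (ι : Type)
    (pr : ι → ℕ) where
  MM : Set (Subgroup G)
  RR : Set (Subgroup G)
  be : ι → G → C.N
  bb : ι → Subgroup G → G → C.N
  Y : Subgroup G → G → C.N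
  Z : Subgroup G → Subgroup G → G → C.N
  pp : ∀ l, (pr l).Prime
  inj : Function.Injective pr
  ne : Nonempty ι
  all : ∀ p : ℕ, p.Prime → p ∣ Nat.card G → ∃ l, pr l = p
  mn : ∀ M ∈ MM, M.Normal
  rn : ∀ X ∈ RR, X.Normal
  mr : ∀ M ∈ MM, M ∈ RR
  mt : ⊤ ∈ MM
  mnx : ∀ M ∈ MM, nx M ∈ MM
  moo : ∀ M ∈ MM, ∀ l, oo M (pr l) ∈ RR
  mno : ∀ M ∈ MM, ∀ l, nx M ⊔ oo M (pr l) ∈ RR
  ro : ∀ l, oo ⊥ (pr l) ∈ RR
  roo : ∀ l t, oo ⊥ (pr l) ⊔ oo ⊥ (pr t) ∈ RR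
  gbb : ∀ l, ∀ X ∈ RR, oo ⊥ (pr l) ≤ X → ∀ g,
    C.gate (bb l X g) = .and {z | ∃ h, g⁻¹ * h ∈ X ∧ z = mi (be l h)}
  gY : ∀ M ∈ MM, ∀ g, C.gate (Y M g) = .and {z | ∃ l, z = mi (bb l (oo M (pr l)) g)}
  gZ : ∀ M ∈ MM, ∀ X ∈ RR, M ≤ X → ∀ g, C.gate (Z M X g) = .and {z | ∃ h, g⁻¹ * h ∈ X ∧ z = mi (Y M h)}
  I1 : ∀ l, ∀ x y z : G, Rf T C [pl (be l x), pl (be l y), pl (be l z), mi (be l (x * y⁻¹ * z))]
  I2 : ∀ l t, ∀ x : G, Rf T C [pl (be l x), pl (bb t (oo ⊥ (pr l) ⊔ oo ⊥ (pr t)) x)]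
  I3 : ∀ l, Rf T C [pl (bb l ⊤ 1)]

end Pool.Agent.H79.SL
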