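import Pool.Agent.H79.SL.IrI

/-!
# COROLLARY B: `|G / O_p'(G)| ≤ S ^ 8` for a finite solvable group `G` whose `p`-subgroups have at most `S` elements
-/

set_option autoImplicit false

namespace Pool.Agent.H79.SL

/-- THEOREM I for a minimal normal subgroup -/
theorem thmI_conj {G : Type} [Group G] [Finite G] [Group.IsSolvable G] {N : Subgroup G} (hN : N.Normal) (hne : N ≠ ⊥)
    (hc : ∀ x ∈ N, ∀ y ∈ N, x * y = y * x)
    (hmin : ∀ U : Subgroup G, U.Normal → U ≤ N → U = ⊥ ∨ U = N) :
    4 * (Subgroup.centralizer (N : Set G)).index ≤ Nat.card N ^ 7 := by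
  classical
  let cg : CommGroup N := { (inferInstance : Group N) with mul_comm := fun x y => Subtype.ext (hc x x.2 y y.2) }
  let V : Type := Additive N
  let acg : AddCommGroup V := @Additive.addCommGroup N cg
  have hfin : Finite V := inferInstanceAs (Finite N)
  have hnt : Nontrivial V := (Subgroup.nontrivial_iff_ne_bot N).2 hne
  let act : DistribMulAction G V :=
    { smul := fun g v => Additive.ofMul (MulAut.conjNormal (H := N) g (Additive.toMul v))
      one_smul := fun v => by
        show Additive.ofMul (MulAut.conjNormal (H := N) 1 (Additive.toMul v)) = v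
        rw [map_one]
        rfl
      mul_smul := fun g h v => by
        show Additive.ofMul (MulAut.conjNormal (H := N) (g * h) (Additive.toMul v)) = _
        rw [map_mul]
        rfl
      smul_zero := fun g => map_one (MulAut.conjNormal (H := N) g)
      smul_add := fun g v w => map_mul (MulAut.conjNormal (H := N) g) (Additive.toMul v) (Additive.toMul w) }
  have hact : ∀ (g : G) (x : N), ((Additive.toMul (g • (Additive.ofMul x : V)) : N) : G) = g * x * g⁻¹ := fun g x =>
    MulAut.conjNormal_apply g x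
  have h1 := thmI G V (by
    intro U hU
    let U' : Subgroup G :=
      { carrier := {x | ∃ h : x ∈ N, (Additive.ofMul (⟨x, h⟩ : N) : V) ∈ U}
        mul_mem' := by
          rintro x y ⟨hx, hx'⟩ ⟨hy, hy'⟩
          exact ⟨mul_mem hx hy, U.add_mem hx' hy'⟩
        one_mem' := ⟨one_mem _, U.zero_mem⟩
        inv_mem' := by
          rintro x ⟨hx, hx'⟩
          exact ⟨inv_mem hx, U.neg_mem hx'⟩ }
    have hU'n : U'.Normal := by
      constructor
      rintro x ⟨hx, hx'⟩ g
      refine ⟨hN.conj_mem x hx g, ?_⟩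
      have h2 := hU g _ hx'
      have h3 : (g • (Additive.ofMul (⟨x, hx⟩ : N) : V)) = (Additive.ofMul (⟨g * x * g⁻¹, hN.conj_mem x hx g⟩ : N) : V) := by
        apply Subtype.ext
        exact hact g ⟨x, hx⟩
      rwa [h3] at h2
    rcases hmin U' hU'n (fun x hx => hx.1) with h2 | h2
    · left
      rw [eq_bot_iff]
      intro v hv
      have h3 : ((Additive.toMul v : N) : G) ∈ U' := ⟨(Additive.toMul v).2, hv⟩
      rw [h2, Subgroup.mem_bot] at h3
      show v = 0
      exact Subtype.ext h3
    · right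
      rw [eq_top_iff]
      intro v _
      have h3 : ((Additive.toMul v : N) : G) ∈ U' := by
        rw [h2]
        exact (Additive.toMul v).2
      exact h3.2)
  have h2 : (MulAction.toPermHom G V).ker ≤ Subgroup.centralizer (N : Set G) := by
    intro g hg
    rw [Subgroup.mem_centralizer_iff]
    intro x hx
    have h3 : g • (Additive.ofMul (⟨x, hx⟩ : N) : V) = (Additive.ofMul (⟨x, hx⟩ : N) : V) :=
      Equiv.congr_fun (MonoidHom.mem_ker.1 hg) _
    have h4 := hact g ⟨x, hx⟩
    rw [h3] at h4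
    have h5 : x = g * x * g⁻¹ := h4
    calc x * g = g * x * g⁻¹ * g := by rw [← h5]
      _ = g * x := by group
  have h3 : (Subgroup.centralizer (N : Set G)).index ≤ (MulAction.toPermHom G V).ker.index :=
    Nat.le_of_dvd (Nat.pos_of_ne_zero Subgroup.index_ne_zero_of_finite) (Subgroup.index_dvd_of_le h2)
  have h4 : Nat.card V = Nat.card N := rfl
  rw [h4] at h1
  omega

/-- the elements of order prime to `p` of a normal subgroup of small index act trivially on a normal `p`-subgroup -/
theorem cent_chain {G : Type} [Group G] [Finite G] [Group.IsSolvable G] {p : ℕ} (n : ℕ) :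
    ∀ N : Subgroup G, N.Normal → IsPGroup p N → Nat.card N ≤ n →
      ∃ K : Subgroup G, K.Normal ∧ K.index ≤ Nat.card N ^ 7 ∧ ∀ x ∈ K, (orderOf x).Coprime p → ∀ y ∈ N, x * y = y * x := by
  classical
  induction n with
  | zero =>
    intro N _ _ h
    have : 0 < Nat.card N := Nat.card_pos
    omega
  | succ n IH =>
    intro N hN hNp hn
    by_cases hNb : N = ⊥
    · subst hNb
      refine ⟨⊤, inferInstance, ?_, ?_⟩
      · rw [Subgroup.index_top, Subgroup.card_bot]
        norm_num
      · intro x _ _ y hy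
        rw [Subgroup.mem_bot.1 hy, mul_one, one_mul]
    obtain ⟨M, hM⟩ := (Set.toFinite {M : Subgroup G | M.Normal ∧ M < N}).exists_maximal ⟨⊥, inferInstance, bot_lt_iff_ne_bot.2 hNb⟩
    have hMn : M.Normal := hM.1.1
    have hMN : M < N := hM.1.2
    let π : G →* G ⧸ M := QuotientGroup.mk' M
    have hπ1 : ∀ x, π x = 1 ↔ x ∈ M := fun x => QuotientGroup.eq_one_iff x
    have hπs : Function.Surjective π := QuotientGroup.mk'_surjective M
    have hker : π.ker = M := QuotientGroup.ker_mk' M
    have hNn : (N.map π).Normal := hN.map π hπs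
    have hcm : (N.map π).comap π = N := by
      rw [Subgroup.comap_map_eq, hker]
      exact sup_eq_left.2 hMN.le
    have hle : ∀ U : Subgroup (G ⧸ M), M ≤ U.comap π := by
      intro U x hx
      rw [Subgroup.mem_comap, (hπ1 x).2 hx]
      exact one_mem _
    have hmin : ∀ U : Subgroup (G ⧸ M), U.Normal → U ≤ N.map π → U = ⊥ ∨ U = N.map π := by
      intro U hU hUN
      have h1 : U.comap π ≤ N := by
        rw [← hcm]
        exact Subgroup.comap_mono hUN
      rcases h1.lt_or_eq with h2 | h2
      · left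
        have h3 : U.comap π ≤ M := hM.2 ⟨hU.comap π, h2⟩ (hle U)
        rw [eq_bot_iff]
        intro x hx
        obtain ⟨g, rfl⟩ := hπs x
        exact Subgroup.mem_bot.2 ((hπ1 g).2 (h3 hx))
      · right
        rw [← h2, Subgroup.map_comap_eq_self_of_surjective hπs]
    have hNb' : N.map π ≠ ⊥ := by
      intro h1
      apply hMN.not_ge
      intro x hx
      rw [← hπ1, ← Subgroup.mem_bot, ← h1]
      exact Subgroup.mem_map_of_mem π hx
    have hcN : ∀ x ∈ N.map π, ∀ y ∈ N.map π, x * y = y * x := by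
      obtain ⟨A, hAn, hAK, hAne, hAc⟩ := exists_abelian hNn hNb'
      rcases hmin A hAn hAK with h1 | h1
      · exact absurd h1 hAne
      · rw [← h1]
        exact hAc
    have hI := thmI_conj hNn hNb' hcN hmin
    have hcard : Nat.card M * Nat.card (N.map π) = Nat.card N := by
      have h1 := Subgroup.relIndex_mul_relIndex ⊥ M N bot_le hMN.le
      have h2 : M.relIndex N = Nat.card (N.map π) := by
        have h := Subgroup.relIndex_comap (⊥ : Subgroup (G ⧸ M)) π N
        rw [Subgroup.relIndex_bot_left, MonoidHom.comap_bot, hker] at h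
        exact h
      rw [Subgroup.relIndex_bot_left, Subgroup.relIndex_bot_left, h2] at h1
      exact h1
    have hMp : IsPGroup p M := hNp.to_le hMN.le
    have hMc : Nat.card M ≤ n := by
      have h1 : 1 < Nat.card (N.map π) := Subgroup.one_lt_card_iff_ne_bot _ |>.2 hNb'
      have h2 : 0 < Nat.card M := Nat.card_pos
      nlinarith
    obtain ⟨K, hK, hKi, hKc⟩ := IH M hMn hMp hMc
    have hCn : (Subgroup.centralizer ((N.map π : Subgroup (G ⧸ M)) : Set (G ⧸ M))).Normal := inferInstance
    refine ⟨K ⊓ (Subgroup.centralizer ((N.map π : Subgroup (G ⧸ M)) : Set (G ⧸ M))).comap π, ?_, ?_, ?_⟩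
    · have := hCn.comap π
      exact Subgroup.normal_inf_normal _ _
    · refine Subgroup.index_inf_le.trans ?_
      rw [Subgroup.index_comap_of_surjective _ hπs, ← hcard, mul_pow]
      exact Nat.mul_le_mul hKi (by omega)
    · intro x hx hxo y hy
      obtain ⟨hxK, hxC⟩ := Subgroup.mem_inf.1 hx
      have h1 : π y * π x = π x * π y := Subgroup.mem_centralizer_iff.1 hxC _ (Subgroup.mem_map_of_mem π hy)
      have hwM : x * y * x⁻¹ * y⁻¹ ∈ M := by
        rw [← hπ1, map_mul, map_mul, map_mul, map_inv, map_inv, ← h1]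
        group
      have hw : x * y = (x * y * x⁻¹ * y⁻¹) * (y * x) := by group
      have hxw := hKc x hxK hxo _ hwM
      obtain ⟨k, hk⟩ := hMp ⟨_, hwM⟩
      have h5 : (x * y * x⁻¹ * y⁻¹) ^ (p ^ k) = 1 := congrArg Subtype.val hk
      generalize x * y * x⁻¹ * y⁻¹ = w at hw hxw h5
      have h2 := pow_comm hw hxw (orderOf x)
      rw [pow_orderOf_eq_one, one_mul, mul_one] at h2
      have h3 : w ^ orderOf x = 1 := by
        have h4 : w ^ orderOf x * y = 1 * y := by rw [one_mul]; exact h2.symm
        exact mul_right_cancel h4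
      have h6 : orderOf w ∣ 1 := by
        have h7 : Nat.Coprime (orderOf x) (p ^ k) := Nat.Coprime.pow_right k hxo
        rw [← h7]
        exact Nat.dvd_gcd (orderOf_dvd_of_pow_eq_one h3) (orderOf_dvd_of_pow_eq_one h5)
      have h8 : w = 1 := orderOf_eq_one_iff.1 (Nat.dvd_one.1 h6)
      rw [h8, one_mul] at hw
      exact hw

/-- the order of a solvable group in terms of its largest normal `p`-subgroup -/
theorem card_le_core8 {Q : Type} [Group Q] [Finite Q] [Group.IsSolvable Q] {p : ℕ} (hp : p.Prime)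
    (h : ∀ N : Subgroup Q, N.Normal → (Nat.card N).Coprime p → N = ⊥) :
    ∃ P : Subgroup Q, IsPGroup p P ∧ Nat.card Q ≤ Nat.card P ^ 8 := by
  classical
  have : Fact p.Prime := ⟨hp⟩
  obtain ⟨P0, hP0n, hP0p, hP0c⟩ := core hp h
  obtain ⟨P, hP⟩ := (Set.toFinite {P : Subgroup Q | P0 ≤ P ∧ P.Normal ∧ IsPGroup p P}).exists_maximal ⟨P0, le_rfl, hP0n, hP0p⟩
  obtain ⟨hP0P, hPn, hPp⟩ := hP.1
  refine ⟨P, hPp, ?_⟩
  obtain ⟨K, hK, hKi, hKc⟩ := cent_chain (Nat.card P) P hPn hPp le_rfl
  have h1 : ∀ x ∈ K, (orderOf x).Coprime p → x = 1 := by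
    intro x hx hxo
    have h2 : x ∈ P0 := hP0c (Subgroup.mem_centralizer_iff.2 fun y hy => (hKc x hx hxo y (hP0P hy)).symm)
    obtain ⟨k, hk⟩ := hP0p ⟨x, h2⟩
    have h3 : x ^ p ^ k = 1 := congrArg Subtype.val hk
    have h4 : orderOf x ∣ 1 := by
      have h7 : Nat.Coprime (orderOf x) (p ^ k) := Nat.Coprime.pow_right k hxo
      rw [← h7]
      exact Nat.dvd_gcd dvd_rfl (orderOf_dvd_of_pow_eq_one h3)
    exact orderOf_eq_one_iff.1 (Nat.dvd_one.1 h4)
  have hKp : IsPGroup p K := by
    rintro ⟨x, hx⟩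
    obtain ⟨a, m, hm, ham⟩ := Nat.exists_eq_pow_mul_and_not_dvd (orderOf_pos x).ne' p hp.ne_one
    refine ⟨a, Subtype.ext ?_⟩
    show x ^ p ^ a = 1
    refine h1 _ (pow_mem hx _) ?_
    rw [orderOf_pow, ham, Nat.gcd_eq_right (Dvd.intro _ rfl), Nat.mul_div_cancel_left _ (pow_pos hp.pos a)]
    exact ((Nat.Prime.coprime_iff_not_dvd hp).2 hm).symm
  have hKP : K ≤ P := by
    have h2 : IsPGroup p (K ⊔ P : Subgroup Q) := hKp.to_sup_of_normal_right hPp
    exact le_sup_left.trans (hP.2 ⟨hP0P.trans le_sup_right, Subgroup.sup_normal K P, h2⟩ le_sup_right)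
  have h2 := Subgroup.card_mul_index K
  rw [← h2, show 8 = 1 + 7 by norm_num, pow_add, pow_one]
  exact Nat.mul_le_mul (Nat.card_le_card_of_injective _ (Subgroup.inclusion_injective hKP)) hKi

/-- COROLLARY B -/
theorem oo_index_le8 {G : Type} [Group G] [Finite G] [Group.IsSolvable G] {p S : ℕ} (hp : p.Prime)
    (hS : ∀ K : Subgroup G, IsPGroup p K → Nat.card K ≤ S) :
    (oo (⊥ : Subgroup G) p).index ≤ S ^ 8 := by
  classical
  have : Fact p.Prime := ⟨hp⟩
  have hMn : (oo (⊥ : Subgroup G) p).Normal := oo_normal inferInstance p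
  have hid : oo (oo (⊥ : Subgroup G) p) p = oo ⊥ p := oo_idem inferInstance p
  obtain ⟨P, hPp, h1⟩ := card_le_core8 (Q := G ⧸ oo (⊥ : Subgroup G) p) hp (by
    intro N hN hc
    have h1 : N.comap (QuotientGroup.mk' (oo (⊥ : Subgroup G) p)) ≤ oo ⊥ p := by
      have h2 : (oo (⊥ : Subgroup G) p).relIndex (N.comap (QuotientGroup.mk' (oo (⊥ : Subgroup G) p))) = Nat.card N := by
        have h3 := Subgroup.relIndex_comap (⊥ : Subgroup (G ⧸ oo (⊥ : Subgroup G) p))
          (QuotientGroup.mk' (oo (⊥ : Subgroup G) p)) (N.comap (QuotientGroup.mk' (oo (⊥ : Subgroup G) p)))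
        rw [Subgroup.relIndex_bot_left, MonoidHom.comap_bot, QuotientGroup.ker_mk',
          Subgroup.map_comap_eq_self_of_surjective (QuotientGroup.mk'_surjective _) N] at h3
        exact h3
      have h4 := oo_max (M := oo (⊥ : Subgroup G) p) (l := p) (hN.comap (QuotientGroup.mk' (oo (⊥ : Subgroup G) p)))
        (by
          intro x hx
          rw [Subgroup.mem_comap]
          have : QuotientGroup.mk' (oo (⊥ : Subgroup G) p) x = 1 := (QuotientGroup.eq_one_iff x).2 hx
          rw [this]
          exact one_mem _) (by rw [h2]; exact hc)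
      rwa [hid] at h4
    rw [eq_bot_iff]
    intro x hx
    obtain ⟨g, rfl⟩ := QuotientGroup.mk'_surjective _ x
    exact Subgroup.mem_bot.2 ((QuotientGroup.eq_one_iff g).2 (h1 hx)))
  have h2 : Nat.card P ≤ S := by
    obtain ⟨a, ha⟩ := IsPGroup.iff_card.1 hPp
    have h3 : p ^ a ∣ Nat.card G := by
      rw [← ha]
      refine (Subgroup.card_subgroup_dvd_card P).trans ?_
      have h4 := Subgroup.card_mul_index (oo (⊥ : Subgroup G) p)
      rw [← h4]
      exact Dvd.intro_left _ rfl
    obtain ⟨K, hK⟩ := Sylow.exists_subgroup_card_pow_prime p h3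
    rw [ha, ← hK]
    exact hS K (IsPGroup.of_card hK)
  have h3 : (oo (⊥ : Subgroup G) p).index = Nat.card (G ⧸ oo (⊥ : Subgroup G) p) := rfl
  rw [h3]
  exact h1.trans (Nat.pow_le_pow_left h2 _)

end Pool.Agent.H79.SL
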