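import Pool.Agent.H79.SL.Pc

/-!
# THEOREM SOLV (MP_576eff_lc): the results about one stage, for a set of primes
-/

set_option autoImplicit false

open Set

namespace Pool.Agent.H79.SL

open Pool.Agent.H42.CS Pool.Agent.H29.NS

variable {Rel : ℕ → Type} {P : Type} {T : Set (Ax Rel)} {C : Circuit Rel P} {G : Type} [Group G]

namespace Loc

variable {ι : Type} {pr : ι → ℕ} (Q : Loc T C G ι pr)

theorem be_bb (l : ι) {X : Subgroup G} (hX : X ∈ Q.RR) (h0 : oo ⊥ (pr l) ≤ X) {g x : G}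
    (hg : g⁻¹ * x ∈ X) : Rf T C [pl (Q.be l x), pl (Q.bb l X g)] :=
  (Q.bbT l hX h0 hg).mono (by
    intro x hx
    simp only [List.mem_cons, List.not_mem_nil, or_false] at hx ⊢
    tauto) (by simp)

theorem bb_el (l : ι) {X : Subgroup G} (hX : X ∈ Q.RR) (h0 : oo ⊥ (pr l) ≤ X) {g : G}
    {Δ : List (Lit C.N)} (hΔ : Δ.length ≤ 13) (h : ∀ x, g⁻¹ * x ∈ X → Rf T C (pl (Q.be l x) :: Δ)) :
    Rf T C (mi (Q.bb l X g) :: Δ) := by
  refine Q.bbF l hX h0 (g := g) (List.mem_cons_self) (fun x hx => ?_)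
    (by simp only [List.length_cons]; omega)
  refine (h x hx).mono ?_ (by simp only [List.length_cons]; omega)
  intro y hy
  simp only [List.mem_cons] at hy ⊢
  rcases hy with rfl | hy
  · exact Or.inl rfl
  · tauto

theorem Y_bb {M : Subgroup G} (hM : M ∈ Q.MM) (l : ι) (g : G) :
    Rf T C [pl (Q.Y M g), pl (Q.bb l (oo M (pr l)) g)] :=
  Q.YT hM l g

theorem Y_mk {M : Subgroup G} (hM : M ∈ Q.MM) {g : G} {Δ : List (Lit C.N)} (hΔ : Δ.length ≤ 13)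
    (h : ∀ l : ι, Rf T C (pl (Q.bb l (oo M (pr l)) g) :: Δ)) : Rf T C (mi (Q.Y M g) :: Δ) := by
  refine Q.YF hM (g := g) (List.mem_cons_self) (fun l => ?_) (by simp only [List.length_cons]; omega)
  refine (h l).mono ?_ (by simp only [List.length_cons]; omega)
  intro y hy
  simp only [List.mem_cons] at hy ⊢
  rcases hy with rfl | hy
  · exact Or.inl rfl
  · tauto

theorem Z_el {M X : Subgroup G} (hM : M ∈ Q.MM) (hX : X ∈ Q.RR) (h0 : M ≤ X) {g : G}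
    {Δ : List (Lit C.N)} (hΔ : Δ.length ≤ 13) (h : ∀ x, g⁻¹ * x ∈ X → Rf T C (pl (Q.Y M x) :: Δ)) :
    Rf T C (mi (Q.Z M X g) :: Δ) := by
  refine Q.ZF hM hX h0 (g := g) (List.mem_cons_self) (fun x hx => ?_)
    (by simp only [List.length_cons]; omega)
  refine (h x hx).mono ?_ (by simp only [List.length_cons]; omega)
  intro y hy
  simp only [List.mem_cons] at hy ⊢
  rcases hy with rfl | hy
  · exact Or.inl rfl
  · tauto

theorem Y_Z {M X : Subgroup G} (hM : M ∈ Q.MM) (hX : X ∈ Q.RR) (h0 : M ≤ X) {g h : G} (hg : g⁻¹ * h ∈ X) :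
    Rf T C [pl (Q.Z M X g), pl (Q.Y M h)] :=
  Q.ZT hM hX h0 hg

variable [Finite G]

/-- monotone -/
theorem Y_res {M M' : Subgroup G} (hM : M ∈ Q.MM) (hM' : M' ∈ Q.MM) (hMM : M ≤ M') {g g' : G} (hg : g⁻¹ * g' ∈ M') :
    Rf T C [pl (Q.Y M g), mi (Q.Y M' g')] :=
  Q.Y_mono hM hM' hMM hg

/-- closed -/
theorem clY {M : Subgroup G} (hM : M ∈ Q.MM) (x y z : G) :
    Rf T C [pl (Q.Y M x), pl (Q.Y M y), pl (Q.Y M z), mi (Q.Y M (x * y⁻¹ * z))] :=
  Q.Y_cl hM x y z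

variable [Group.IsSolvable G]

/-- EXT -/
theorem EXT {M M' : Subgroup G} (hM : M ∈ Q.MM) (hM' : M' ∈ Q.MM) (h : M ≤ M') (g : G) :
    Rf T C [pl (Q.Y M' g), pl (Q.Z M M' g)] :=
  Q.extI hM hM' h g

/-- EXT with a context -/
theorem ext {M M' : Subgroup G} (hM : M ∈ Q.MM) (hM' : M' ∈ Q.MM) (h : M ≤ M') {g : G} {Δ : List (Lit C.N)}
    (hΔ : Δ.length ≤ 12) (hx : ∀ x, g⁻¹ * x ∈ M' → Rf T C (pl (Q.Y M x) :: Δ)) : Rf T C (pl (Q.Y M' g) :: Δ) := by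
  refine Rf.cut (pl (Q.Z M M' g)) ?_ ?_ (by simp only [List.length_cons]; omega)
  · refine (Q.EXT hM hM' h g).mono ?_ (by simp only [List.length_cons]; omega)
    intro x hx
    simp only [List.mem_cons, List.not_mem_nil, or_false] at hx ⊢
    tauto
  · refine Q.Z_el hM (Q.mr M' hM') h (by simp only [List.length_cons]; omega) fun x h1 => ?_
    refine (hx x h1).mono ?_ (by simp only [List.length_cons]; omega)
    intro y hy
    simp only [List.mem_cons] at hy ⊢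
    tauto

/-- some coset is allowed -/
theorem EX0 {M : Subgroup G} (hM : M ∈ Q.MM) : Rf T C [pl (Q.Z M ⊤ 1)] := Q.exist hM

theorem ex0 {M : Subgroup G} (hM : M ∈ Q.MM) {Δ : List (Lit C.N)}
    (hΔ : Δ.length ≤ 12) (hx : ∀ x, Rf T C (pl (Q.Y M x) :: Δ)) : Rf T C Δ := by
  refine Rf.cut (pl (Q.Z M ⊤ 1)) ?_ ?_ (by omega)
  · refine (Q.EX0 hM).mono ?_ (by simp only [List.length_cons]; omega)
    intro x hx
    simp only [List.mem_cons, List.not_mem_nil, or_false] at hx ⊢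
    tauto
  · exact Q.Z_el hM (Q.mr _ Q.mt) le_top (by omega) fun x _ => hx x

end Loc

/-- LG for a set of primes -/
theorem lg [Finite G] [Group.IsSolvable G] {LL : Set ℕ} (lne : LL.Nonempty)
    (lall : ∀ p : ℕ, p.Prime → p ∣ Nat.card G → p ∈ LL) {X : Subgroup G} (hX : X.Normal) (B : G → Lit C.N)
    (hB : ∀ x y z, Rf T C [B x, B y, B z, (B (x * y⁻¹ * z)).neg]) (g : G) (Δ : List (Lit C.N)) (hΔ : Δ.length ≤ 12)
    (h0 : ∀ b, g⁻¹ * b ∈ X → Rf T C (B b :: Δ))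
    (hu : ∀ l ∈ LL, ∀ Δ' : List (Lit C.N), (∀ x ∈ Δ, x ∈ Δ') → Δ'.length ≤ Δ.length + 1 →
      (∀ b, g⁻¹ * b ∈ oo X l → Rf T C (B b :: Δ')) → Rf T C Δ') :
    Rf T C Δ :=
  LG (ι := {l : ℕ // l ∈ LL}) (pr := Subtype.val) lne.to_subtype (fun p hp hd => ⟨⟨p, lall p hp hd⟩, rfl⟩) hX B hB g Δ
    hΔ h0 fun l => hu l.1 l.2

end Pool.Agent.H79.SL
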