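import Pool.Agent.H79.SL.Rk
import Pool.Agent.H29.SV.SRad

/-!
# Cores in solvable groups of bounded sectional rank

`(core H).index ≤ H.index ^ (c * r)` in a solvable group of sectional rank at most `r`.
-/

set_option autoImplicit false

namespace Pool.Agent.H79.SL

open Pool.Agent.H29.SV (PrimC)

theorem rk_core {c r : ℕ} (hc : PrimC c) {G : Type} [Group G] [Finite G] [Group.IsSolvable G] (hr : RankLe G r) (d : ℕ) :
    ∀ H : Subgroup G, H.index = d → H.normalCore.index ≤ d ^ (c * r) := by
  classical
  induction d using Nat.strong_induction_on with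
  | _ d ih =>
    intro H hd
    by_cases hH : H = ⊤
    · subst hH
      have h1 : (⊤ : Subgroup G).normalCore = ⊤ := Subgroup.normalCore_eq_self ⊤
      rw [h1, ← hd, Subgroup.index_top, one_pow]
    -- a subgroup `K` in which `H` is maximal
    obtain ⟨K, hK⟩ := (Set.toFinite {K : Subgroup G | H < K}).exists_minimal ⟨⊤, lt_top_iff_ne_top.2 hH⟩
    have hHK : H < K := hK.1
    have hco : IsCoatom (H.subgroupOf K) := by
      constructor
      · intro h1
        rw [Subgroup.subgroupOf_eq_top] at h1
        exact hHK.not_ge h1
      · intro L hL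
        have h2 : H < L.map K.subtype := by
          have h3 : (H.subgroupOf K).map K.subtype = H := by
            rw [Subgroup.subgroupOf_map_subtype]
            exact inf_eq_left.2 hHK.le
          rw [← h3]
          exact (Subgroup.map_lt_map_iff_of_injective K.subtype_injective).2 hL
        have h3 : K ≤ L.map K.subtype := hK.2 h2 (Subgroup.map_subtype_le L)
        rw [eq_top_iff]
        rintro ⟨x, hx⟩ -
        obtain ⟨y, hy, hyx⟩ := h3 hx
        have h4 : y = ⟨x, hx⟩ := Subtype.ext hyx
        rwa [h4] at hy
    have hidx : H.relIndex K * K.index = H.index := Subgroup.relIndex_mul_index hHK.le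
    have hrel : 1 < H.relIndex K := by
      have h1 : H.relIndex K ≠ 0 := by
        unfold Subgroup.relIndex
        exact Subgroup.index_ne_zero_of_finite
      have h2 : H.relIndex K ≠ 1 := by
        intro h3
        rw [Subgroup.relIndex_eq_one] at h3
        exact hHK.not_ge h3
      omega
    have hKi : 0 < K.index := Nat.pos_of_ne_zero Subgroup.index_ne_zero_of_finite
    have hlt : K.index < d := by
      rw [← hd, ← hidx]
      nlinarith
    have hcore := ih K.index hlt K rfl
    -- the primitive section
    let N0 : Subgroup K := (H.subgroupOf K).normalCore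
    have hN0 : N0.index ≤ (H.relIndex K) ^ c := hc K (H.subgroupOf K) hco
    let C : Subgroup G := K.normalCore
    have hCn : C.Normal := K.normalCore_normal
    have hCK : C ≤ K := K.normalCore_le
    have hconj : ∀ (g : G) (x : C), g⁻¹ * x * g ∈ K := by
      intro g x
      have h1 := hCn.conj_mem x x.2 g⁻¹
      rw [inv_inv] at h1
      exact hCK h1
    let φ : G → C →* K ⧸ N0 := fun g =>
      { toFun := fun x => QuotientGroup.mk' N0 ⟨g⁻¹ * x * g, hconj g x⟩
        map_one' := by
          rw [← map_one (QuotientGroup.mk' N0)]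
          congr 1
          apply Subtype.ext
          show g⁻¹ * ((1 : C) : G) * g = 1
          rw [Subgroup.coe_one]
          group
        map_mul' := by
          intro x y
          rw [← map_mul]
          congr 1
          apply Subtype.ext
          show g⁻¹ * ((x * y : C) : G) * g = (g⁻¹ * x * g) * (g⁻¹ * y * g)
          rw [Subgroup.coe_mul]
          group }
    let Φ : C →* (G → K ⧸ N0) := MonoidHom.pi φ
    have hY : Nat.card Φ.range ∣ Nat.card (K ⧸ N0) ^ r := by
      refine rk_pow (ι := G) (fun g => (Pi.evalMonoidHom (fun _ : G => K ⧸ N0) g).comp Φ.range.subtype) ?_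
        ((hr.subgroup C).of_surjective Φ.rangeRestrict Φ.rangeRestrict_surjective)
      intro y hy
      apply Subtype.ext
      funext g
      exact hy g
    have hYle : Nat.card Φ.range ≤ (H.relIndex K) ^ (c * r) := by
      refine (Nat.le_of_dvd (pow_pos Nat.card_pos _) hY).trans ?_
      rw [pow_mul]
      exact Nat.pow_le_pow_left hN0 r
    have hker : Φ.ker.map C.subtype ≤ H.normalCore := by
      rintro _ ⟨x, hx, rfl⟩
      intro g
      have h1 : Φ x g⁻¹ = 1 := by
        rw [MonoidHom.mem_ker.1 hx]
        rfl
      have h2 : (⟨(g⁻¹)⁻¹ * x * g⁻¹, hconj g⁻¹ x⟩ : K) ∈ N0 := (QuotientGroup.eq_one_iff _).1 h1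
      have h3 := (H.subgroupOf K).normalCore_le h2
      have h4 : (g⁻¹)⁻¹ * (x : G) * g⁻¹ ∈ H := h3
      rw [inv_inv] at h4
      exact h4
    have h1 : H.normalCore.index ≤ (Φ.ker.map C.subtype).index :=
      Nat.le_of_dvd (Nat.pos_of_ne_zero Subgroup.index_ne_zero_of_finite) (Subgroup.index_dvd_of_le hker)
    have h2 : (Φ.ker.map C.subtype).index = Φ.ker.index * C.index := by
      rw [Subgroup.index_map, Subgroup.ker_subtype, sup_bot_eq, Subgroup.range_subtype]
    refine h1.trans ?_
    rw [h2, Subgroup.index_ker, ← hd, ← hidx, mul_pow]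
    exact Nat.mul_le_mul hYle hcore

/-- transitive constituents of a solvable group of permutations -/
theorem rk_stab {c r : ℕ} (hc : PrimC c) {n : ℕ} {Γ : Subgroup (Equiv.Perm (Fin n))} (hΓ : Group.IsSolvable Γ) (hr : RankLe Γ r)
    (x : Fin n) : (MulAction.stabilizer Γ x).normalCore.index ≤ n ^ (c * r) := by
  refine (rk_core hc hr _ (MulAction.stabilizer Γ x) rfl).trans (Nat.pow_le_pow_left ?_ _)
  rw [MulAction.index_stabilizer]
  refine (Set.ncard_le_ncard (Set.subset_univ _) Set.finite_univ).trans ?_
  rw [Set.ncard_univ, Nat.card_fin]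

end Pool.Agent.H79.SL
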