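import Pool.Agent.H79.SL.Rk
import Pool.Agent.H79.SL.IrK

/-!
# `p`-groups of permutations of bounded sectional rank

A `p`-group of permutations of `n` points of sectional rank at most `r` has at most `n ^ r` elements.
-/

set_option autoImplicit false

namespace Pool.Agent.H79.SL

/-- a subgroup `K` over `H` of index at most `p` -/
private theorem overK {p : ℕ} [hp : Fact p.Prime] {P : Type} [Group P] [Finite P] (hP : IsPGroup p P) {a : ℕ} {H : Subgroup P}
    (hH : H.index ≤ p ^ (a + 1)) :
    ∃ K : Subgroup P, H ≤ K ∧ K.index ≤ p ^ a ∧ (∀ x ∈ K, x ^ p ∈ H) ∧ ∀ x ∈ K, ∀ y ∈ K, x * y * x⁻¹ * y⁻¹ ∈ H := by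
  classical
  have hp1 := hp.out.one_lt
  by_cases hT : H = ⊤
  · subst hT
    refine ⟨⊤, le_rfl, ?_, fun _ _ => Subgroup.mem_top _, fun _ _ _ _ => Subgroup.mem_top _⟩
    rw [Subgroup.index_top]
    exact Nat.one_le_pow _ _ (by omega)
  obtain ⟨N, hN⟩ := IsPGroup.iff_card.1 hP
  obtain ⟨m, hm⟩ := IsPGroup.iff_card.1 (hP.to_subgroup H)
  have h1 := Subgroup.card_mul_index H
  have hmN : m < N := by
    by_contra hcon
    have h2 : N ≤ m := not_lt.1 hcon
    apply hT
    apply Subgroup.eq_top_of_card_eq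
    refine le_antisymm (Nat.card_le_card_of_injective _ H.subtype_injective) ?_
    rw [hN, hm]
    exact Nat.pow_le_pow_right (by omega) h2
  have hdvd : p ^ (m + 1) ∣ Nat.card P := by
    rw [hN]
    exact pow_dvd_pow p hmN
  obtain ⟨K, hK, hHK⟩ := Sylow.exists_subgroup_card_pow_succ hdvd hm
  have hrel : H.relIndex K = p := by
    have h2 := Subgroup.relIndex_mul_relIndex ⊥ H K bot_le hHK
    rw [Subgroup.relIndex_bot_left, Subgroup.relIndex_bot_left, hm, hK, pow_succ] at h2
    exact Nat.eq_of_mul_eq_mul_left (pow_pos hp.out.pos m) h2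
  have hidx : H.relIndex K * K.index = H.index := Subgroup.relIndex_mul_index hHK
  have hnorm : (H.subgroupOf K).Normal := by
    apply Subgroup.normal_of_index_eq_minFac_card
    rw [hK, hp.out.pow_minFac (by omega)]
    exact hrel
  have hcard : Nat.card (K ⧸ H.subgroupOf K) = p := hrel
  have hcyc : IsCyclic (K ⧸ H.subgroupOf K) := isCyclic_of_prime_card hcard
  refine ⟨K, hHK, ?_, ?_, ?_⟩
  · rw [hrel] at hidx
    rw [← hidx, pow_succ'] at hH
    exact Nat.le_of_mul_le_mul_left hH hp.out.pos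
  · intro x hx
    have h2 : (QuotientGroup.mk' (H.subgroupOf K) ⟨x, hx⟩) ^ p = 1 := by
      rw [← hcard]
      exact pow_card_eq_one'
    rw [← map_pow] at h2
    have h3 : (⟨x, hx⟩ : K) ^ p ∈ H.subgroupOf K := (QuotientGroup.eq_one_iff _).1 h2
    exact h3
  · intro x hx y hy
    have h2 : QuotientGroup.mk' (H.subgroupOf K) (⟨x, hx⟩ * ⟨y, hy⟩ * (⟨x, hx⟩)⁻¹ * (⟨y, hy⟩)⁻¹) = 1 := by
      rw [map_mul, map_mul, map_mul, map_inv, map_inv]
      have h3 := hcyc.isMulCommutative.is_comm.comm (QuotientGroup.mk' (H.subgroupOf K) ⟨x, hx⟩) (QuotientGroup.mk' (H.subgroupOf K) ⟨y, hy⟩)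
      rw [h3]
      group
    have h4 : (⟨x, hx⟩ : K) * ⟨y, hy⟩ * (⟨x, hx⟩)⁻¹ * (⟨y, hy⟩)⁻¹ ∈ H.subgroupOf K := (QuotientGroup.eq_one_iff _).1 h2
    exact h4

/-- a `p`-group with a family of subgroups of small index -/
theorem rk_fam {ι : Type} {r p : ℕ} [hp : Fact p.Prime] (a : ℕ) : ∀ (P : Type) [Group P] [Finite P] (H : ι → Subgroup P),
    IsPGroup p P → (∀ j, (H j).index ≤ p ^ a) → (∀ x, (∀ j, ∀ g : P, g * x * g⁻¹ ∈ H j) → x = 1) → RankLe P r →
    Nat.card P ≤ p ^ (r * a) := by
  classical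
  induction a with
  | zero =>
    intro P _ _ H _ hH hinj _
    have h1 : ∀ x : P, x = 1 := by
      intro x
      refine hinj x fun j g => ?_
      have h2 : (H j).index ≠ 0 := Subgroup.index_ne_zero_of_finite
      have h3 : (H j).index = 1 := by
        have := hH j
        rw [pow_zero] at this
        omega
      rw [Subgroup.index_eq_one.1 h3]
      exact Subgroup.mem_top _
    have h2 : Subsingleton P := ⟨fun x y => by rw [h1 x, h1 y]⟩
    rw [Nat.card_of_subsingleton (1 : P), mul_zero, pow_zero]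
  | succ a ih =>
    intro P _ _ H hP hH hinj hr
    choose K hHK hKi hKp hKc using fun j => overK hP (hH j)
    let N : Subgroup P := ⨅ j, (K j).normalCore
    have hN : ∀ x, x ∈ N ↔ ∀ j, ∀ g : P, g * x * g⁻¹ ∈ K j := by
      intro x
      rw [Subgroup.mem_iInf]
      rfl
    have hNn : N.Normal := by
      constructor
      intro x hx g
      rw [hN] at hx ⊢
      intro j g'
      have h1 := hx j (g' * g)
      have h2 : g' * (g * x * g⁻¹) * g'⁻¹ = g' * g * x * (g' * g)⁻¹ := by group
      rw [h2]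
      exact h1
    have h1 : Nat.card N ≤ p ^ r := by
      have h2 := hr p ⊥ N hp.out bot_le (by
        intro x hx
        rw [hN] at hx
        rw [Subgroup.mem_bot]
        refine hinj _ fun j g => ?_
        rw [← conj_pow]
        exact hKp j _ (hx j g)) (by
        intro x hx y hy
        rw [hN] at hx hy
        rw [Subgroup.mem_bot]
        refine hinj _ fun j g => ?_
        have h3 := hKc j _ (hx j g) _ (hy j g)
        have h4 : g * (x * y * x⁻¹ * y⁻¹) * g⁻¹ = g * x * g⁻¹ * (g * y * g⁻¹) * (g * x * g⁻¹)⁻¹ * (g * y * g⁻¹)⁻¹ := by group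
        rw [h4]
        exact h3)
      rwa [Subgroup.relIndex_bot_left] at h2
    have hNK : ∀ j, N ≤ K j := by
      intro j x hx
      have h2 := (hN x).1 hx j 1
      rwa [one_mul, inv_one, mul_one] at h2
    have h2 : Nat.card (P ⧸ N) ≤ p ^ (r * a) := by
      refine ih (P ⧸ N) (fun j => (K j).map (QuotientGroup.mk' N)) (hP.to_quotient N) ?_ ?_ (hr.quotient N)
      · intro j
        refine le_trans (le_of_eq ?_) (hKi j)
        rw [Subgroup.index_map, QuotientGroup.ker_mk', sup_eq_left.2 (hNK j),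
          MonoidHom.range_eq_top.2 (QuotientGroup.mk'_surjective N), Subgroup.index_top, mul_one]
      · intro x hx
        obtain ⟨x, rfl⟩ := QuotientGroup.mk'_surjective N x
        refine (QuotientGroup.eq_one_iff x).2 ((hN x).2 fun j g => ?_)
        obtain ⟨y, hy, hyx⟩ := hx j (QuotientGroup.mk' N g)
        rw [← map_inv, ← map_mul, ← map_mul] at hyx
        have h3 : y⁻¹ * (g * x * g⁻¹) ∈ N := QuotientGroup.eq.1 hyx
        have h4 := (K j).mul_mem hy (hNK j h3)
        rwa [mul_inv_cancel_left] at h4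
    have h3 := Subgroup.card_mul_index N
    have h4 : N.index = Nat.card (P ⧸ N) := rfl
    rw [← h3, h4, show r * (a + 1) = r + r * a by ring, pow_add]
    exact Nat.mul_le_mul h1 h2

/-- a `p`-group of permutations -/
theorem rk_perm {n r p : ℕ} (hp : p.Prime) {P : Subgroup (Equiv.Perm (Fin n))} (hP : IsPGroup p P) (hr : RankLe P r) (hn : 1 ≤ n) :
    Nat.card P ≤ n ^ r := by
  have : Fact p.Prime := ⟨hp⟩
  have h1 := rk_fam (ι := Fin n) (Nat.log p n) P (fun x => MulAction.stabilizer P x) hP (by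
    intro x
    have h2 : (MulAction.stabilizer P x).index ≤ n := by
      rw [MulAction.index_stabilizer]
      refine (Set.ncard_le_ncard (Set.subset_univ _) Set.finite_univ).trans ?_
      rw [Set.ncard_univ, Nat.card_fin]
    obtain ⟨k, hk⟩ := hP.index (MulAction.stabilizer P x)
    rw [hk] at h2 ⊢
    exact Nat.pow_le_pow_right hp.pos (Nat.le_log_of_pow_le hp.one_lt h2)) (by
    intro x hx
    apply Subtype.ext
    ext j
    have h2 := hx j 1
    rw [one_mul, inv_one, mul_one] at h2
    have h3 : (x : Equiv.Perm (Fin n)) j = j := h2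
    rw [h3]
    rfl) hr
  refine h1.trans ?_
  rw [mul_comm, pow_mul]
  exact Nat.pow_le_pow_left (Nat.pow_log_le_self p (by omega)) r

/-- the index of `O_p'` in a solvable group of permutations of sectional rank at most `r` -/
theorem rk_oo {n r p : ℕ} (hn : 1 ≤ n) {Γ : Subgroup (Equiv.Perm (Fin n))} (hΓ : Group.IsSolvable Γ) (hr : RankLe Γ r)
    (hp : p.Prime) : (oo (⊥ : Subgroup Γ) p).index ≤ n ^ (8 * r) := by
  rw [mul_comm, pow_mul]
  refine oo_index_le8 hp fun K hK => ?_
  have h1 : Nat.card (K.map Γ.subtype) = Nat.card K :=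
    (Nat.card_congr (K.equivMapOfInjective Γ.subtype Γ.subtype_injective).toEquiv).symm
  rw [← h1]
  have h2 : IsPGroup p (K.map Γ.subtype) := hK.map _
  refine rk_perm hp h2 ?_ hn
  have h3 : RankLe K r := hr.subgroup K
  exact h3.of_surjective (K.equivMapOfInjective Γ.subtype Γ.subtype_injective).toMonoidHom
    (K.equivMapOfInjective Γ.subtype Γ.subtype_injective).surjective

end Pool.Agent.H79.SL
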