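import Mathlib

/-!
# The number of automorphisms of a finite group
-/

set_option autoImplicit false

namespace Pool.Agent.H79.SL

variable {H : Type*} [Group H] [Finite H]

/-- a finite group is generated by few elements -/
theorem gen_log : ∃ S : Finset H, S.card ≤ Nat.log 2 (Nat.card H) ∧ Subgroup.closure (S : Set H) = ⊤ := by
  classical
  have key : ∀ k : ℕ, ∃ S : Finset H, S.card ≤ k ∧
      (Subgroup.closure (S : Set H) = ⊤ ∨ 2 ^ k ≤ Nat.card (Subgroup.closure (S : Set H))) := by
    intro k
    induction k with
    | zero => exact ⟨∅, by simp, Or.inr (by rw [pow_zero]; exact Nat.card_pos)⟩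
    | succ k ih =>
      obtain ⟨S, hS, h⟩ := ih
      by_cases htop : Subgroup.closure (S : Set H) = ⊤
      · exact ⟨S, by omega, Or.inl htop⟩
      · have h2 := h.resolve_left htop
        obtain ⟨x, hx⟩ : ∃ x, x ∉ Subgroup.closure (S : Set H) := by
          by_contra hcon
          push Not at hcon
          exact htop (eq_top_iff.2 fun x _ => hcon x)
        refine ⟨insert x S, (Finset.card_insert_le x S).trans (by omega), Or.inr ?_⟩
        have hlt : Subgroup.closure (S : Set H) < Subgroup.closure ((insert x S : Finset H) : Set H) := by
          refine lt_of_le_of_ne (Subgroup.closure_mono (by simp)) ?_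
          intro h3
          apply hx
          rw [h3]
          exact Subgroup.subset_closure (by simp)
        have hdvd : Nat.card (Subgroup.closure (S : Set H)) ∣
            Nat.card (Subgroup.closure ((insert x S : Finset H) : Set H)) := Subgroup.card_dvd_of_le hlt.le
        obtain ⟨c, hc⟩ := hdvd
        have hc2 : 2 ≤ c := by
          rcases Nat.lt_or_ge c 2 with h3 | h3
          · exfalso
            have h4 : Nat.card (Subgroup.closure ((insert x S : Finset H) : Set H)) ≤
                Nat.card (Subgroup.closure (S : Set H)) := by
              rw [hc]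
              have : c ≤ 1 := by omega
              nlinarith [Nat.zero_le (Nat.card (Subgroup.closure (S : Set H)))]
            exact hlt.ne (Subgroup.eq_of_le_of_card_ge hlt.le h4)
          · exact h3
        rw [hc, pow_succ]
        exact Nat.mul_le_mul h2 hc2
  obtain ⟨S, hS, h⟩ := key (Nat.log 2 (Nat.card H))
  refine ⟨S, hS, ?_⟩
  rcases h with h | h
  · exact h
  · by_contra hne
    have hlt : Subgroup.closure (S : Set H) < ⊤ := lt_top_iff_ne_top.2 hne
    obtain ⟨c, hc⟩ : Nat.card (Subgroup.closure (S : Set H)) ∣ Nat.card H :=
      Subgroup.card_subgroup_dvd_card _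
    have hc2 : 2 ≤ c := by
      rcases Nat.lt_or_ge c 2 with h3 | h3
      · exfalso
        have hpos : 0 < Nat.card H := Nat.card_pos
        have h4 : c = 1 := by
          rcases Nat.eq_zero_or_pos c with h5 | h5
          · rw [h5, mul_zero] at hc
            omega
          · omega
        rw [h4, mul_one] at hc
        exact hne ((Subgroup.card_eq_iff_eq_top _).1 hc.symm)
      · exact h3
    have h5 : 2 ^ (Nat.log 2 (Nat.card H) + 1) ≤ Nat.card H := by
      rw [hc, pow_succ]
      refine Nat.mul_le_mul ?_ hc2
      rw [← hc]
      exact h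
    exact absurd (Nat.lt_pow_succ_log_self (by norm_num) (Nat.card H)) (not_lt_of_ge h5)

/-- the number of automorphisms -/
theorem card_aut : Nat.card (MulAut H) ≤ Nat.card H ^ Nat.log 2 (Nat.card H) := by
  classical
  obtain ⟨S, hS, hgen⟩ := gen_log (H := H)
  have hinj : Function.Injective (fun (f : MulAut H) (s : S) => f (s : H)) := by
    intro f g hfg
    apply MulEquiv.toMonoidHom_injective
    refine MonoidHom.eq_of_eqOn_dense hgen ?_
    intro x hx
    exact congrFun hfg ⟨x, hx⟩
  have h1 := Nat.card_le_card_of_injective _ hinj
  refine h1.trans ?_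
  rw [Nat.card_fun, Nat.card_eq_fintype_card (α := S), Fintype.card_coe]
  exact Nat.pow_le_pow_right Nat.card_pos hS

end Pool.Agent.H79.SL
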