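import Pool.Agent.H79.SL.Lg

/-!
# THEOREM SOLV (MP_576eff_lc): rules for the nodes of one stage, closure, monotonicity
-/

set_option autoImplicit false

open Set

namespace Pool.Agent.H79.SL

open Pool.Agent.H42.CS Pool.Agent.H29.NS

variable {Rel : ℕ → Type} {P : Type} {T : Set (Ax Rel)} {C : Circuit Rel P} {G : Type} [Group G]

theorem mem3 {X : Subgroup G} (hX : X.Normal) {x y z x' y' z' : G} (hx : x⁻¹ * x' ∈ X) (hy : y⁻¹ * y' ∈ X)
    (hz : z⁻¹ * z' ∈ X) : (x * y⁻¹ * z)⁻¹ * (x' * y'⁻¹ * z') ∈ X := by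
  rw [← QuotientGroup.eq] at hx hy hz ⊢
  rw [QuotientGroup.mk_mul, QuotientGroup.mk_mul, QuotientGroup.mk_inv, hx, hy, hz]
  rfl

theorem mem_tr {X : Subgroup G} {x y z : G} (h : x⁻¹ * y ∈ X) (h' : y⁻¹ * z ∈ X) : x⁻¹ * z ∈ X := by
  have h1 := mul_mem h h'
  rwa [mul_assoc, mul_inv_cancel_left] at h1

theorem mem_sy {X : Subgroup G} {x y : G} (h : x⁻¹ * y ∈ X) : y⁻¹ * x ∈ X := by
  have h1 := inv_mem h
  rwa [mul_inv_rev, inv_inv] at h1

theorem mem_rf (X : Subgroup G) (x : G) : x⁻¹ * x ∈ X := by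
  rw [inv_mul_cancel]
  exact one_mem X

/-- a factorization -/
theorem mem_fac {X X' : Subgroup G} (hX' : X'.Normal) {x y : G} (h : x⁻¹ * y ∈ X ⊔ X') :
    ∃ g, x⁻¹ * g ∈ X ∧ g⁻¹ * y ∈ X' := by
  obtain ⟨a, ha, b, hb, hab⟩ := Subgroup.mem_sup_of_normal_right.1 h
  refine ⟨x * a, by rwa [inv_mul_cancel_left], ?_⟩
  have h1 : (x * a)⁻¹ * y = b := by
    rw [mul_inv_rev, mul_assoc, ← hab, inv_mul_cancel_left]
  rw [h1]
  exact hb

variable {ι : Type} {pr : ι → ℕ} (D : Loc T C G ι pr)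

namespace Loc

theorem bbT (l : ι) {X : Subgroup G} (hX : X ∈ D.RR) (h0 : oo ⊥ (pr l) ≤ X) {g h : G}
    (hg : g⁻¹ * h ∈ X) : Rf T C [pl (D.bb l X g), pl (D.be l h)] :=
  Rf.andT (x := mi (D.be l h)) (D.gbb l X hX h0 g) ⟨h, hg, rfl⟩

theorem bbF (l : ι) {X : Subgroup G} (hX : X ∈ D.RR) (h0 : oo ⊥ (pr l) ≤ X) {g : G}
    {Δ : List (Lit C.N)} (hm : mi (D.bb l X g) ∈ Δ) (h : ∀ h, g⁻¹ * h ∈ X → Rf T C (pl (D.be l h) :: Δ))
    (hw : Δ.length ≤ 15) : Rf T C Δ := by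
  refine Rf.andF (D.gbb l X hX h0 g) hm ?_ (by omega)
  rintro x ⟨k, hk, rfl⟩
  exact h k hk

theorem YT {M : Subgroup G} (hM : M ∈ D.MM) (l : ι) (g : G) :
    Rf T C [pl (D.Y M g), pl (D.bb l (oo M (pr l)) g)] :=
  Rf.andT (x := mi (D.bb l (oo M (pr l)) g)) (D.gY M hM g) ⟨l, rfl⟩

theorem YF {M : Subgroup G} (hM : M ∈ D.MM) {g : G} {Δ : List (Lit C.N)} (hm : mi (D.Y M g) ∈ Δ)
    (h : ∀ l : ι, Rf T C (pl (D.bb l (oo M (pr l)) g) :: Δ)) (hw : Δ.length ≤ 15) : Rf T C Δ := by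
  refine Rf.andF (D.gY M hM g) hm ?_ (by omega)
  rintro x ⟨l, rfl⟩
  exact h l

theorem ZT {M X : Subgroup G} (hM : M ∈ D.MM) (hX : X ∈ D.RR) (h0 : M ≤ X) {g h : G} (hg : g⁻¹ * h ∈ X) :
    Rf T C [pl (D.Z M X g), pl (D.Y M h)] :=
  Rf.andT (x := mi (D.Y M h)) (D.gZ M hM X hX h0 g) ⟨h, hg, rfl⟩

theorem ZF {M X : Subgroup G} (hM : M ∈ D.MM) (hX : X ∈ D.RR) (h0 : M ≤ X) {g : G}
    {Δ : List (Lit C.N)} (hm : mi (D.Z M X g) ∈ Δ) (h : ∀ h, g⁻¹ * h ∈ X → Rf T C (pl (D.Y M h) :: Δ))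
    (hw : Δ.length ≤ 15) : Rf T C Δ := by
  refine Rf.andF (D.gZ M hM X hX h0 g) hm ?_ (by omega)
  rintro x ⟨k, hk, rfl⟩
  exact h k hk

theorem bb_mono (l : ι) {X X' : Subgroup G} (hX : X ∈ D.RR) (hX' : X' ∈ D.RR) (h0 : oo ⊥ (pr l) ≤ X)
    (hXX : X ≤ X') {g g' : G} (hg : g'⁻¹ * g ∈ X') : Rf T C [pl (D.bb l X' g'), mi (D.bb l X g)] := by
  refine D.bbF l hX h0 (g := g) (by simp) (fun h hh => ?_) (by simp)
  refine (D.bbT l hX' (h0.trans hXX) (mem_tr hg (hXX hh))).mono ?_ (by simp)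
  intro x hx
  simp only [List.mem_cons, List.not_mem_nil, or_false] at hx ⊢
  tauto

theorem Z_mono {M X X' : Subgroup G} (hM : M ∈ D.MM) (hX : X ∈ D.RR) (hX' : X' ∈ D.RR) (h0 : M ≤ X)
    (hXX : X ≤ X') {g g' : G} (hg : g'⁻¹ * g ∈ X') : Rf T C [pl (D.Z M X' g'), mi (D.Z M X g)] := by
  refine D.ZF hM hX h0 (g := g) (by simp) (fun h hh => ?_) (by simp)
  refine (D.ZT hM hX' (h0.trans hXX) (mem_tr hg (hXX hh))).mono ?_ (by simp)
  intro x hx
  simp only [List.mem_cons, List.not_mem_nil, or_false] at hx ⊢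
  tauto

theorem oo_bot_le [Finite G] {M : Subgroup G} (hM : M.Normal) (l : ℕ) : oo ⊥ l ≤ oo M l :=
  oo_mono inferInstance hM bot_le l

theorem Y_mono [Finite G] {M M' : Subgroup G} (hM : M ∈ D.MM) (hM' : M' ∈ D.MM) (hMM : M ≤ M') {g g' : G}
    (hg : g⁻¹ * g' ∈ M') : Rf T C [pl (D.Y M g), mi (D.Y M' g')] := by
  refine D.YF hM' (g := g') (by simp) (fun l => ?_) (by simp)
  refine Rf.cut (pl (D.bb l (oo M (pr l)) g)) ?_ ?_ (by simp)
  · refine (D.YT hM l g).mono ?_ (by simp)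
    intro x hx
    simp only [List.mem_cons, List.not_mem_nil, or_false] at hx ⊢
    tauto
  · refine (D.bb_mono l (D.moo M hM l) (D.moo M' hM' l) (oo_bot_le (D.mn M hM) (pr l))
      (oo_mono (D.mn M hM) (D.mn M' hM') hMM (pr l)) (g := g) (g' := g')
      (le_oo (D.mn M' hM') (pr l) (mem_sy hg))).mono ?_ (by simp)
    intro x hx
    simp only [List.mem_cons, List.not_mem_nil, or_false, Lit.neg] at hx ⊢
    rcases hx with rfl | rfl
    · exact Or.inr (Or.inl rfl)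
    · exact Or.inl rfl

theorem bb_cl [Finite G] (l : ι) {X : Subgroup G} (hX : X ∈ D.RR) (h0 : oo ⊥ (pr l) ≤ X) (x y z : G) :
    Rf T C [mi (D.bb l X x), mi (D.bb l X y), mi (D.bb l X z), pl (D.bb l X (x * y⁻¹ * z))] := by
  refine D.bbF l hX h0 (g := x) (by simp) (fun x' hx' => ?_) (by simp)
  refine D.bbF l hX h0 (g := y) (by simp) (fun y' hy' => ?_) (by simp)
  refine D.bbF l hX h0 (g := z) (by simp) (fun z' hz' => ?_) (by simp)
  refine Rf.cut (pl (D.be l (x' * y'⁻¹ * z'))) ?_ ?_ (by simp)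
  · refine (D.bbT l hX h0 (mem3 (D.rn X hX) hx' hy' hz')).mono ?_ (by simp)
    intro x hx
    simp only [List.mem_cons, List.not_mem_nil, or_false] at hx ⊢
    tauto
  · refine (D.I1 l x' y' z').mono ?_ (by simp)
    intro x hx
    simp only [List.mem_cons, List.not_mem_nil, or_false, Lit.neg] at hx ⊢
    rcases hx with rfl | rfl | rfl | rfl
    · simp
    · simp
    · simp
    · exact Or.inl rfl

theorem Y_cl [Finite G] {M : Subgroup G} (hM : M ∈ D.MM) (x y z : G) :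
    Rf T C [pl (D.Y M x), pl (D.Y M y), pl (D.Y M z), mi (D.Y M (x * y⁻¹ * z))] := by
  refine D.YF hM (g := x * y⁻¹ * z) (by simp) (fun l => ?_) (by simp)
  have h := D.bb_cl l (D.moo M hM l) (oo_bot_le (D.mn M hM) (pr l)) x y z
  refine Rf.cut (pl (D.bb l (oo M (pr l)) x)) ?_ ?_ (by simp)
  · refine (D.YT hM l x).mono ?_ (by simp)
    intro x hx
    simp only [List.mem_cons, List.not_mem_nil, or_false] at hx ⊢
    tauto
  refine Rf.cut (pl (D.bb l (oo M (pr l)) y)) ?_ ?_ (by simp)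
  · refine (D.YT hM l y).mono ?_ (by simp)
    intro x hx
    simp only [List.mem_cons, List.not_mem_nil, or_false] at hx ⊢
    tauto
  refine Rf.cut (pl (D.bb l (oo M (pr l)) z)) ?_ ?_ (by simp)
  · refine (D.YT hM l z).mono ?_ (by simp)
    intro x hx
    simp only [List.mem_cons, List.not_mem_nil, or_false] at hx ⊢
    tauto
  refine h.mono ?_ (by simp)
  intro x hx
  simp only [List.mem_cons, List.not_mem_nil, or_false] at hx
  rcases hx with rfl | rfl | rfl | rfl <;> simp [Lit.neg]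

theorem Z_cl [Finite G] {M X : Subgroup G} (hM : M ∈ D.MM) (hX : X ∈ D.RR) (h0 : M ≤ X) (x y z : G) :
    Rf T C [mi (D.Z M X x), mi (D.Z M X y), mi (D.Z M X z), pl (D.Z M X (x * y⁻¹ * z))] := by
  refine D.ZF hM hX h0 (g := x) (by simp) (fun x' hx' => ?_) (by simp)
  refine D.ZF hM hX h0 (g := y) (by simp) (fun y' hy' => ?_) (by simp)
  refine D.ZF hM hX h0 (g := z) (by simp) (fun z' hz' => ?_) (by simp)
  refine Rf.cut (pl (D.Y M (x' * y'⁻¹ * z'))) ?_ ?_ (by simp)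
  · refine (D.ZT hM hX h0 (mem3 (D.rn X hX) hx' hy' hz')).mono ?_ (by simp)
    intro x hx
    simp only [List.mem_cons, List.not_mem_nil, or_false] at hx ⊢
    tauto
  · refine (D.Y_cl hM x' y' z').mono ?_ (by simp)
    intro x hx
    simp only [List.mem_cons, List.not_mem_nil, or_false, Lit.neg] at hx ⊢
    rcases hx with rfl | rfl | rfl | rfl
    · simp
    · simp
    · simp
    · exact Or.inl rfl

end Loc

end Pool.Agent.H79.SL
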