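import Pool.Agent.H79.SL.Syl

/-!
# Irreducible solvable linear groups: the quasi-primitive case

`H` a finite solvable group with an injective homomorphism `ρ` into the automorphisms of a finite vector space `V` over the field `K`; `A` a maximal
abelian normal subgroup of `H`, acting by scalars (`s`), such that the elements which commute with `A` are linear: `4 |H| ≤ |V| ^ 7`.
-/

set_option autoImplicit false

namespace Pool.Agent.H79.SL

/-- the numerical inequality -/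
theorem num_ir {q m b a h : ℕ} (hq : 2 ≤ q) (hm : 1 ≤ m) (hb1 : 1 ≤ b) (hb : b ≤ m ^ 2) (ha : a ≤ q)
    (hh : h ≤ a * (b ^ Nat.log 2 b * (a * a ^ Nat.log 2 b))) : 4 * h ≤ (q ^ m) ^ 7 := by
  have hL1 : 2 ^ Nat.log 2 b ≤ b := Nat.pow_log_le_self 2 (by omega)
  have hL2 : b < 2 ^ (Nat.log 2 b + 1) := Nat.lt_pow_succ_log_self (by norm_num) b
  generalize Nat.log 2 b = L at hh hL1 hL2
  have hsq : ∀ L : ℕ, (L ^ 2 + 2 * L + 4) ^ 2 ≤ 49 * 2 ^ L := by
    intro L
    rcases Nat.lt_or_ge L 7 with h7 | h7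
    · interval_cases L <;> norm_num
    · induction L, h7 using Nat.le_induction with
      | base => norm_num
      | succ n hn ih =>
        have h1 : ((n + 1) ^ 2 + 2 * (n + 1) + 4) ^ 2 ≤ 2 * (n ^ 2 + 2 * n + 4) ^ 2 := by
          have h2 : (n + 1) ^ 2 + 2 * (n + 1) + 4 = (n ^ 2 + 2 * n + 4) + (2 * n + 3) := by ring
          rw [h2]
          nlinarith [sq_nonneg (n : ℤ), mul_le_mul hn hn (by omega) (by omega), pow_le_pow_left₀ (by omega : 0 ≤ 7) hn 3,
            pow_le_pow_left₀ (by omega : 0 ≤ 7) hn 4]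
        calc ((n + 1) ^ 2 + 2 * (n + 1) + 4) ^ 2 ≤ 2 * (n ^ 2 + 2 * n + 4) ^ 2 := h1
          _ ≤ 2 * (49 * 2 ^ n) := by omega
          _ = 49 * 2 ^ (n + 1) := by ring
  have he : L ^ 2 + 2 * L + 4 ≤ 7 * m := by
    have h1 : (L ^ 2 + 2 * L + 4) ^ 2 ≤ (7 * m) ^ 2 := by
      refine (hsq L).trans ?_
      have h2 : 2 ^ L ≤ m ^ 2 := hL1.trans hb
      nlinarith
    exact (Nat.pow_le_pow_iff_left (by norm_num)).1 h1
  have hq0 : 0 < q := by omega
  have h4 : 4 ≤ q ^ 2 := by nlinarith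
  have hbL : b ^ L ≤ q ^ ((L + 1) * L) := by
    rw [pow_mul]
    exact Nat.pow_le_pow_left (hL2.le.trans (Nat.pow_le_pow_left hq _)) L
  have haL : a ^ L ≤ q ^ L := Nat.pow_le_pow_left ha L
  calc 4 * h ≤ q ^ 2 * (q * (q ^ ((L + 1) * L) * (q * q ^ L))) := by
        refine Nat.mul_le_mul h4 (hh.trans ?_)
        exact Nat.mul_le_mul ha (Nat.mul_le_mul hbL (Nat.mul_le_mul ha haL))
    _ = q ^ (L ^ 2 + 2 * L + 4) := by
        rw [show L ^ 2 + 2 * L + 4 = 2 + (1 + ((L + 1) * L + (1 + L))) by ring]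
        simp only [pow_add, pow_one]
    _ ≤ q ^ (7 * m) := Nat.pow_le_pow_right hq0 he
    _ = (q ^ m) ^ 7 := by rw [← pow_mul, mul_comm]

end Pool.Agent.H79.SL
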