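import Pool.Agent.H79.SL.Syl

/-!
# Irreducible solvable linear groups: the subgroup `B` over a maximal abelian normal subgroup `A`
-/

set_option autoImplicit false

open scoped commutatorElement

namespace Pool.Agent.H79.SL

variable {H : Type} [Group H] [Finite H] [Group.IsSolvable H]

/-- the subgroup `B` -/
theorem exists_B {A : Subgroup H} (hA : A.Normal) (hc : ∀ x ∈ A, ∀ y ∈ A, x * y = y * x)
    (hmax : ∀ A' : Subgroup H, A'.Normal → (∀ x ∈ A', ∀ y ∈ A', x * y = y * x) → A ≤ A' → A' ≤ A) :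
    ∃ B : Subgroup H, B.Normal ∧ A ≤ B ∧ (∀ x ∈ B, ∀ y ∈ A, x * y = y * x) ∧
      (∀ x ∈ B, ∀ y ∈ B, x * y * x⁻¹ * y⁻¹ ∈ A) ∧ (∀ x ∈ B, (∀ y ∈ B, x * y = y * x) → x ∈ A) ∧
      (∀ x, (∀ y ∈ A, x * y = y * x) → (∀ y ∈ B, x * y = y * x) → x ∈ A) := by
  classical
  let S : Set (Subgroup H) := {B | B.Normal ∧ A ≤ B ∧ (∀ x ∈ B, ∀ y ∈ A, x * y = y * x) ∧
    (∀ x ∈ B, ∀ y ∈ B, x * y * x⁻¹ * y⁻¹ ∈ A)}
  have hAS : A ∈ S := ⟨hA, le_rfl, hc, fun x hx y hy => by
    rw [hc x hx y hy]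
    have : y * x * x⁻¹ * y⁻¹ = 1 := by group
    rw [this]
    exact one_mem A⟩
  obtain ⟨B, hB⟩ := (Set.toFinite S).exists_maximal ⟨A, hAS⟩
  obtain ⟨hBn, hAB, hBA, hBB⟩ := hB.1
  have hZ : ∀ x ∈ B, (∀ y ∈ B, x * y = y * x) → x ∈ A := by
    let Z : Subgroup H := B ⊓ Subgroup.centralizer (B : Set H)
    have hZn : Z.Normal := by
      have h1 : (Subgroup.centralizer (B : Set H)).Normal := inferInstance
      exact inferInstanceAs (B ⊓ Subgroup.centralizer (B : Set H)).Normal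
    have hZc : ∀ x ∈ Z, ∀ y ∈ Z, x * y = y * x := by
      intro x hx y hy
      exact Subgroup.mem_centralizer_iff.1 (Subgroup.mem_inf.1 hy).2 x (Subgroup.mem_inf.1 hx).1
    have hAZ : A ≤ Z := by
      intro x hx
      refine Subgroup.mem_inf.2 ⟨hAB hx, Subgroup.mem_centralizer_iff.2 fun y hy => hBA y hy x hx⟩
    intro x hx hxy
    refine hmax Z hZn hZc hAZ (Subgroup.mem_inf.2 ⟨hx, Subgroup.mem_centralizer_iff.2 fun y hy => (hxy y hy).symm⟩)
  refine ⟨B, hBn, hAB, hBA, hBB, hZ, ?_⟩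
  by_contra hcon
  push Not at hcon
  obtain ⟨x0, hx0A, hx0B, hx0⟩ := hcon
  let E : Subgroup H := Subgroup.centralizer (B : Set H)
  have hEn : E.Normal := inferInstanceAs (Subgroup.centralizer (B : Set H)).Normal
  have hEm : ∀ x, x ∈ E ↔ ∀ y ∈ B, y * x = x * y := fun x => Subgroup.mem_centralizer_iff
  have hAE : A ≤ E := fun x hx => (hEm x).2 fun y hy => hBA y hy x hx
  let π : H →* H ⧸ A := QuotientGroup.mk' A
  have hπ1 : ∀ x, π x = 1 ↔ x ∈ A := fun x => QuotientGroup.eq_one_iff x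
  have hπs : Function.Surjective π := QuotientGroup.mk'_surjective A
  have hne : E.map π ≠ ⊥ := by
    intro h1
    apply hx0
    have h2 : π x0 ∈ E.map π := Subgroup.mem_map_of_mem π ((hEm x0).2 fun y hy => (hx0B y hy).symm)
    rw [h1, Subgroup.mem_bot] at h2
    exact (hπ1 x0).1 h2
  obtain ⟨F', hF'n, hF'E, hF'ne, hF'c⟩ := exists_abelian (hEn.map π hπs) hne
  let F : Subgroup H := F'.comap π
  have hFn : F.Normal := hF'n.comap π
  have hFE : F ≤ E := by
    intro x hx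
    obtain ⟨e, he, hex⟩ := Subgroup.mem_map.1 (hF'E hx)
    have h1 : e⁻¹ * x ∈ A := by
      rw [← hπ1, map_mul, map_inv, hex, inv_mul_cancel]
    have h2 : x = e * (e⁻¹ * x) := by group
    rw [h2]
    exact mul_mem he (hAE h1)
  have hFc : ∀ x ∈ F, ∀ y ∈ F, π x * π y = π y * π x := fun x hx y hy => hF'c _ hx _ hy
  have hBc : ∀ x ∈ B, ∀ y ∈ B, π x * π y = π y * π x := by
    intro x hx y hy
    have h1 := hBB x hx y hy
    rw [← hπ1] at h1
    simp only [map_mul, map_inv] at h1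
    have h2 : π x * π y = (π x * π y * (π x)⁻¹ * (π y)⁻¹) * (π y * π x) := by group
    rw [h2, h1, one_mul]
  have hFB : ∀ f ∈ F, ∀ b ∈ B, b * f = f * b := fun f hf b hb => (hEm f).1 (hFE hf) b hb
  have hcomm : ∀ x ∈ B ⊔ F, ∀ y ∈ B ⊔ F, π x * π y = π y * π x := by
    intro x hx y hy
    obtain ⟨b, hb, f, hf, rfl⟩ := Subgroup.mem_sup_of_normal_right.1 hx
    obtain ⟨b', hb', f', hf', rfl⟩ := Subgroup.mem_sup_of_normal_right.1 hy
    have e1 : π f * π b' = π b' * π f := by rw [← map_mul, ← map_mul, hFB f hf b' hb']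
    have e2 : π f' * π b = π b * π f' := by rw [← map_mul, ← map_mul, hFB f' hf' b hb]
    have e3 := hBc b hb b' hb'
    have e4 := hFc f hf f' hf'
    calc π (b * f) * π (b' * f') = π b * (π f * π b') * π f' := by simp only [map_mul, mul_assoc]
      _ = (π b * π b') * (π f * π f') := by rw [e1]; simp only [mul_assoc]
      _ = (π b' * π b) * (π f' * π f) := by rw [e3, e4]
      _ = π b' * (π b * π f') * π f := by simp only [mul_assoc]
      _ = π b' * (π f' * π b) * π f := by rw [e2]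
      _ = π (b' * f') * π (b * f) := by simp only [map_mul, mul_assoc]
  have hS : B ⊔ F ∈ S := by
    refine ⟨Subgroup.sup_normal B F, hAB.trans le_sup_left, ?_, ?_⟩
    · intro x hx y hy
      obtain ⟨b, hb, f, hf, rfl⟩ := Subgroup.mem_sup_of_normal_right.1 hx
      have e1 := hBA b hb y hy
      have e2 := hFB f hf y (hAB hy)
      rw [mul_assoc, ← e2, ← mul_assoc, e1, mul_assoc]
    · intro x hx y hy
      rw [← hπ1, map_mul, map_mul, map_mul, map_inv, map_inv, hcomm x hx y hy]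
      group
  have h1 : B ⊔ F ≤ B := hB.2 hS le_sup_left
  apply hF'ne
  rw [eq_bot_iff]
  intro y hy
  obtain ⟨x, rfl⟩ := hπs y
  have hxF : x ∈ F := hy
  have hxB : x ∈ B := h1 (le_sup_right (a := B) hxF)
  refine Subgroup.mem_bot.2 ((hπ1 x).2 (hZ x hxB fun z hz => (hFB x hxF z hz).symm))

end Pool.Agent.H79.SL
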