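import Pool.Agent.H79.SL.IrB

/-!
# Irreducible solvable linear groups: the order in terms of `A` and `B`
-/

set_option autoImplicit false

namespace Pool.Agent.H79.SL

variable {H : Type} [Group H] [Finite H]

/-- the order in terms of a normal subgroup and its centralizer -/
theorem card_le_cent (N : Subgroup H) [N.Normal] :
    Nat.card H ≤ Nat.card (MulAut N) * Nat.card (Subgroup.centralizer (N : Set H)) := by
  have h1 : (MulAut.conjNormal (H := N)).ker ≤ Subgroup.centralizer (N : Set H) := by
    intro g hg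
    rw [MonoidHom.mem_ker] at hg
    rw [Subgroup.mem_centralizer_iff]
    intro x hx
    have h2 : (MulAut.conjNormal (H := N) g ⟨x, hx⟩ : H) = x := by
      rw [hg]
      rfl
    rw [MulAut.conjNormal_apply] at h2
    have h4 := congrArg (fun z => z * g) h2
    simp only [inv_mul_cancel_right] at h4
    exact h4.symm
  have h2 := Subgroup.index_mul_card (MulAut.conjNormal (H := N)).ker
  rw [← h2, Subgroup.index_ker]
  refine Nat.mul_le_mul ?_ (Nat.card_le_card_of_injective _ (Subgroup.inclusion_injective h1))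
  exact Nat.card_le_card_of_injective _ (Subtype.val_injective)

/-- a cyclic group has few automorphisms -/
theorem card_aut_cyclic {A : Type} [Group A] [Finite A] [IsCyclic A] : Nat.card (MulAut A) ≤ Nat.card A := by
  obtain ⟨g, hg⟩ := IsCyclic.exists_generator (α := A)
  refine Nat.card_le_card_of_injective (fun f : MulAut A => f g) ?_
  intro f f' h
  ext x
  obtain ⟨k, rfl⟩ := hg x
  have h' : f g = f' g := h
  simp only [map_zpow, h']

/-- the order of the centralizer of `A` -/
theorem card_cent {A B : Subgroup H} [hA : A.Normal] [hB : B.Normal] (hc : ∀ x ∈ A, ∀ y ∈ A, x * y = y * x) (hAB : A ≤ B)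
    (hE : ∀ x, (∀ y ∈ A, x * y = y * x) → (∀ y ∈ B, x * y = y * x) → x ∈ A) :
    Nat.card (Subgroup.centralizer (A : Set H)) ≤
      Nat.card (MulAut (B.map (QuotientGroup.mk' A))) *
        (Nat.card A * Nat.card A ^ Nat.log 2 (Nat.card (B.map (QuotientGroup.mk' A)))) := by
  classical
  let π : H →* H ⧸ A := QuotientGroup.mk' A
  have hπ1 : ∀ x, π x = 1 ↔ x ∈ A := fun x => QuotientGroup.eq_one_iff x
  have hπs : Function.Surjective π := QuotientGroup.mk'_surjective A
  have hBn : (B.map π).Normal := hB.map π hπs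
  let φ : H →* MulAut (B.map π) := (MulAut.conjNormal (H := B.map π)).comp π
  let C : Subgroup H := Subgroup.centralizer (A : Set H)
  let D : Subgroup C := (φ.comp C.subtype).ker
  have hCm : ∀ x : C, ∀ y ∈ A, y * (x : H) = x * y := fun x y hy => Subgroup.mem_centralizer_iff.1 x.2 y hy
  have h1 := Subgroup.index_mul_card D
  have h2 : D.index ≤ Nat.card (MulAut (B.map π)) := by
    rw [Subgroup.index_ker]
    exact Nat.card_le_card_of_injective _ (Subtype.val_injective)
  rw [show Nat.card (Subgroup.centralizer (A : Set H)) = Nat.card C from rfl, ← h1]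
  refine Nat.mul_le_mul h2 ?_
  obtain ⟨S, hS, hgen⟩ := gen_log (H := B.map π)
  have hrep : ∀ s : S, ∃ b ∈ B, π b = ((s : B.map π) : H ⧸ A) := fun s => Subgroup.mem_map.1 (s : B.map π).2
  choose bs hbs1 hbs2 using hrep
  have hDA : ∀ (x : D) (s : S), ((x : C) : H) * bs s * ((x : C) : H)⁻¹ * (bs s)⁻¹ ∈ A := by
    intro x s
    have h3 : φ ((x : C) : H) = 1 := x.2
    have h4 : (φ ((x : C) : H) (s : B.map π) : H ⧸ A) = ((s : B.map π) : H ⧸ A) := by
      rw [h3]
      rfl
    have h5 : (φ ((x : C) : H) (s : B.map π) : H ⧸ A) =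
        π ((x : C) : H) * ((s : B.map π) : H ⧸ A) * (π ((x : C) : H))⁻¹ := MulAut.conjNormal_apply _ _
    rw [h5, ← hbs2 s] at h4
    rw [← hπ1, map_mul, map_mul, map_mul, map_inv, map_inv, h4, mul_inv_cancel]
  let F : D →* (S → A) :=
    { toFun := fun x s => ⟨_, hDA x s⟩
      map_one' := by
        funext s
        apply Subtype.ext
        show ((1 : H)) * bs s * (1 : H)⁻¹ * (bs s)⁻¹ = 1
        group
      map_mul' := by
        intro x y
        funext s
        apply Subtype.ext
        show (((x : C) : H) * ((y : C) : H)) * bs s * (((x : C) : H) * ((y : C) : H))⁻¹ * (bs s)⁻¹ =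
          (((x : C) : H) * bs s * ((x : C) : H)⁻¹ * (bs s)⁻¹) * (((y : C) : H) * bs s * ((y : C) : H)⁻¹ * (bs s)⁻¹)
        have h3 := hDA y s
        have h5 := hDA x s
        have h4 := hCm (x : C) _ h3
        have h6 := hc _ h5 _ h3
        generalize ((x : C) : H) = X at h4 h5 h6 ⊢
        generalize ((y : C) : H) = Yy at h3 h4 h6 ⊢
        generalize bs s = b at h3 h4 h5 h6 ⊢
        rw [h6]
        calc X * Yy * b * (X * Yy)⁻¹ * b⁻¹ = X * (Yy * b * Yy⁻¹ * b⁻¹) * b * X⁻¹ * b⁻¹ := by group
          _ = (Yy * b * Yy⁻¹ * b⁻¹) * X * b * X⁻¹ * b⁻¹ := by rw [← h4]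
          _ = _ := by group }
  have h3 := Subgroup.card_mul_index F.ker
  rw [← h3, Subgroup.index_ker]
  refine Nat.mul_le_mul ?_ ?_
  · -- the kernel
    have h4 : ∀ x : F.ker, (((x : D) : C) : H) ∈ A := by
      intro x
      refine hE _ (fun y hy => (hCm _ y hy).symm) ?_
      have hcom : ∀ s : S, (((x : D) : C) : H) * bs s = bs s * (((x : D) : C) : H) := by
        intro s
        have h5 : F (x : D) = 1 := x.2
        have h6 := congrArg Subtype.val (congrFun h5 s)
        have h7 : (((x : D) : C) : H) * bs s * (((x : D) : C) : H)⁻¹ * (bs s)⁻¹ = 1 := h6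
        have h8 : (((x : D) : C) : H) * bs s =
            ((((x : D) : C) : H) * bs s * (((x : D) : C) : H)⁻¹ * (bs s)⁻¹) * (bs s * (((x : D) : C) : H)) := by group
        rw [h8, h7, one_mul]
      generalize hX : (((x : D) : C) : H) = X at hcom
      have hXA : ∀ y ∈ A, y * X = X * y := by
        intro y hy
        rw [← hX]
        exact hCm _ y hy
      let W : Subgroup (B.map π) :=
        { carrier := {z | ∃ w, π w = (z : H ⧸ A) ∧ X * w = w * X}
          mul_mem' := by
            rintro z z' ⟨w, hw, hw'⟩ ⟨v, hv, hv'⟩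
            refine ⟨w * v, by rw [map_mul, hw, hv]; rfl, ?_⟩
            rw [← mul_assoc, hw', mul_assoc, hv', mul_assoc]
          one_mem' := ⟨1, by rw [map_one]; rfl, by rw [mul_one, one_mul]⟩
          inv_mem' := by
            rintro z ⟨w, hw, hw'⟩
            refine ⟨w⁻¹, by rw [map_inv, hw]; rfl, ?_⟩
            have h9 : w * X = X * w := hw'.symm
            calc X * w⁻¹ = w⁻¹ * (w * X) * w⁻¹ := by group
              _ = w⁻¹ * (X * w) * w⁻¹ := by rw [h9]
              _ = w⁻¹ * X := by group }
      have hW : W = ⊤ := by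
        rw [eq_top_iff, ← hgen, Subgroup.closure_le]
        intro s hs
        exact ⟨bs ⟨s, hs⟩, hbs2 ⟨s, hs⟩, hcom ⟨s, hs⟩⟩
      intro y hy
      have h9 : (⟨π y, Subgroup.mem_map_of_mem π hy⟩ : B.map π) ∈ W := by
        rw [hW]
        exact Subgroup.mem_top _
      obtain ⟨w, hw, hw'⟩ := h9
      have h10 : w⁻¹ * y ∈ A := by
        rw [← hπ1, map_mul, map_inv, hw, inv_mul_cancel]
      have h11 : y = w * (w⁻¹ * y) := by group
      have h12 := hXA _ h10
      calc X * y = X * w * (w⁻¹ * y) := by rw [mul_assoc, ← h11]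
        _ = w * (X * (w⁻¹ * y)) := by rw [hw', mul_assoc]
        _ = w * ((w⁻¹ * y) * X) := by rw [h12]
        _ = y * X := by rw [← mul_assoc, ← h11]
    exact Nat.card_le_card_of_injective (fun x : F.ker => (⟨_, h4 x⟩ : A)) (by
      intro x y hxy
      have h5 := congrArg Subtype.val hxy
      exact Subtype.ext (Subtype.ext (Subtype.ext h5)))
  · refine (Nat.card_le_card_of_injective _ (Subtype.val_injective)).trans ?_
    rw [Nat.card_fun, Nat.card_eq_fintype_card (α := S), Fintype.card_coe]
    exact Nat.pow_le_pow_right Nat.card_pos hS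

end Pool.Agent.H79.SL
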