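import Pool.Agent.H79.SL.IrA
import Pool.Agent.H79.SL.IrC

/-!
# Irreducible solvable linear groups: the case where the maximal abelian normal subgroup acts by scalars
-/

set_option autoImplicit false

namespace Pool.Agent.H79.SL

variable {K V H : Type} [Field K] [AddCommGroup V] [Module K V] [Finite V] [Nontrivial V] [Group H] [Finite H] [DistribMulAction H V]

/-- the index of `A` in `B` is at most `m ^ 2` -/
theorem card_map_le (hf : ∀ h : H, (∀ v : V, h • v = v) → h = 1) {A B : Subgroup H} [hA : A.Normal] [hB : B.Normal] (hAB : A ≤ B)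
    (hBA : ∀ x ∈ B, ∀ y ∈ A, x * y = y * x) (hBB : ∀ x ∈ B, ∀ y ∈ B, x * y * x⁻¹ * y⁻¹ ∈ A)
    (hZ : ∀ x ∈ B, (∀ y ∈ B, x * y = y * x) → x ∈ A)
    (s : A → K) (hs : ∀ (a : A) (v : V), (a : H) • v = s a • v)
    (hlin : ∀ x, (∀ y ∈ A, x * y = y * x) → ∀ (c : K) (v : V), x • (c • v) = c • (x • v)) :
    Nat.card (B.map (QuotientGroup.mk' A)) ≤ Module.finrank K V ^ 2 := by
  classical
  obtain ⟨v0, hv0⟩ := exists_ne (0 : V)
  let π : H →* H ⧸ A := QuotientGroup.mk' A
  have hπ1 : ∀ x, π x = 1 ↔ x ∈ A := fun x => QuotientGroup.eq_one_iff x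
  have hrep : ∀ β : B.map π, ∃ b ∈ B, π b = (β : H ⧸ A) := fun β => Subgroup.mem_map.1 β.2
  choose t ht1 ht2 using hrep
  -- the linear maps
  let L : B.map π → (V →ₗ[K] V) := fun β =>
    { toFun := fun v => t β • v
      map_add' := fun v w => smul_add _ _ _
      map_smul' := fun c v => hlin (t β) (hBA _ (ht1 β)) c v }
  have hs1 : s 1 = 1 := by
    have h1 := hs 1 v0
    have h2 : ((1 : A) : H) • v0 = v0 := by
      rw [Subgroup.coe_one, one_smul]
    rw [h2] at h1
    have h3 : (s 1 - 1) • v0 = 0 := by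
      rw [sub_smul, one_smul, ← h1, sub_self]
    rcases smul_eq_zero.1 h3 with h4 | h4
    · exact sub_eq_zero.1 h4
    · exact absurd h4 hv0
  have hsm : ∀ a b : A, s (a * b) = s a * s b := by
    intro a b
    have h1 := hs (a * b) v0
    have h2 : ((a * b : A) : H) • v0 = s a • s b • v0 := by
      rw [Subgroup.coe_mul, mul_smul, hs b, hs a]
    rw [h2, ← mul_smul] at h1
    have h3 : (s (a * b) - s a * s b) • v0 = 0 := by
      rw [sub_smul, ← h1, sub_self]
    rcases smul_eq_zero.1 h3 with h4 | h4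
    · exact sub_eq_zero.1 h4
    · exact absurd h4 hv0
  have hsi : Function.Injective s := by
    intro a b hab
    apply Subtype.ext
    have h1 : (b : H)⁻¹ * (a : H) = 1 := by
      refine hf _ fun v => ?_
      rw [mul_smul, hs a, hab, ← hs b, ← mul_smul, inv_mul_cancel, one_smul]
    exact (inv_mul_eq_one.1 h1).symm
  -- the characters
  let χ : B.map π → (B →* K) := fun β =>
    { toFun := fun x => s ⟨(x : H) * t β * (x : H)⁻¹ * (t β)⁻¹, hBB _ x.2 _ (ht1 β)⟩
      map_one' := by
        rw [← hs1]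
        congr 1
        apply Subtype.ext
        show (1 : H) * t β * (1 : H)⁻¹ * (t β)⁻¹ = 1
        group
      map_mul' := by
        intro x y
        rw [← hsm]
        congr 1
        apply Subtype.ext
        show ((x : H) * (y : H)) * t β * ((x : H) * (y : H))⁻¹ * (t β)⁻¹ =
          ((x : H) * t β * (x : H)⁻¹ * (t β)⁻¹) * ((y : H) * t β * (y : H)⁻¹ * (t β)⁻¹)
        have h3 := hBB _ y.2 _ (ht1 β)
        have h5 := hBB _ x.2 _ (ht1 β)
        have h4 := hBA _ x.2 _ h3
        have h6 := hBA _ (hAB h5) _ h3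
        generalize (x : H) = X at h4 h5 h6 ⊢
        generalize (y : H) = Y at h3 h4 h6 ⊢
        generalize t β = b at h3 h4 h5 h6 ⊢
        rw [h6]
        calc X * Y * b * (X * Y)⁻¹ * b⁻¹ = X * (Y * b * Y⁻¹ * b⁻¹) * b * X⁻¹ * b⁻¹ := by group
          _ = (Y * b * Y⁻¹ * b⁻¹) * X * b * X⁻¹ * b⁻¹ := by rw [h4]
          _ = _ := by group }
  have hχi : Function.Injective χ := by
    intro β γ h
    apply Subtype.ext
    rw [← ht2 β, ← ht2 γ]
    have h1 : (t γ)⁻¹ * t β ∈ A := by
      refine hZ _ (B.mul_mem (B.inv_mem (ht1 γ)) (ht1 β)) ?_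
      intro y hy
      have h2 := DFunLike.congr_fun h (⟨y⁻¹, B.inv_mem hy⟩ : B)
      have h3 := congrArg Subtype.val (hsi h2)
      have h4 : y⁻¹ * t β * (y⁻¹)⁻¹ * (t β)⁻¹ = y⁻¹ * t γ * (y⁻¹)⁻¹ * (t γ)⁻¹ := h3
      rw [inv_inv] at h4
      have h5 : t β * y * (t β)⁻¹ = t γ * y * (t γ)⁻¹ := by
        calc t β * y * (t β)⁻¹ = y * (y⁻¹ * t β * y * (t β)⁻¹) := by group
          _ = y * (y⁻¹ * t γ * y * (t γ)⁻¹) := by rw [h4]
          _ = _ := by group
      calc (t γ)⁻¹ * t β * y = (t γ)⁻¹ * (t β * y * (t β)⁻¹) * t β := by group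
        _ = (t γ)⁻¹ * (t γ * y * (t γ)⁻¹) * t β := by rw [h5]
        _ = y * ((t γ)⁻¹ * t β) := by group
    have h2 := (hπ1 _).2 h1
    rw [map_mul, map_inv] at h2
    exact (inv_mul_eq_one.1 h2).symm
  have hli : LinearIndependent K (fun β => ((χ β : B →* K) : B → K)) := (linearIndependent_monoidHom B K).comp χ hχi
  have hkey : ∀ (β : B.map π) (x : B) (v : V), (x : H) • (L β ((x : H)⁻¹ • v)) = χ β x • L β v := by
    intro β x v
    show (x : H) • (t β • ((x : H)⁻¹ • v)) = s ⟨(x : H) * t β * (x : H)⁻¹ * (t β)⁻¹, hBB _ x.2 _ (ht1 β)⟩ • (t β • v)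
    rw [← hs, ← mul_smul, ← mul_smul, ← mul_smul]
    congr 1
    show (x : H) * t β * (x : H)⁻¹ = (x : H) * t β * (x : H)⁻¹ * (t β)⁻¹ * t β
    group
  have hBf : Fintype (B.map π) := Fintype.ofFinite _
  have hL : LinearIndependent K L := by
    rw [Fintype.linearIndependent_iff]
    intro c hc β
    have h1 : ∀ (x : B) (v : V), ∑ γ, c γ • χ γ x • L γ v = 0 := by
      intro x v
      have h2 : (x : H) • ((∑ γ, c γ • L γ) ((x : H)⁻¹ • v)) = 0 := by
        rw [hc]
        exact smul_zero _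
      rw [LinearMap.sum_apply, Finset.smul_sum] at h2
      rw [← h2]
      refine Finset.sum_congr rfl fun γ _ => ?_
      rw [LinearMap.smul_apply, hlin _ (hBA _ x.2), hkey]
    have h2 : ∀ (v : V) (f : Module.Dual K V), c β * f (L β v) = 0 := by
      intro v f
      refine Fintype.linearIndependent_iff.1 hli (fun γ => c γ * f (L γ v)) ?_ β
      funext x
      rw [Finset.sum_apply]
      have h3 := congrArg f (h1 x v)
      rw [map_sum, map_zero] at h3
      refine Eq.trans ?_ h3
      refine Finset.sum_congr rfl fun γ _ => ?_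
      rw [Pi.smul_apply, map_smul, map_smul, smul_eq_mul, smul_eq_mul, smul_eq_mul]
      ring
    have h3 : c β • L β v0 = 0 := by
      rw [← Module.forall_dual_apply_eq_zero_iff K]
      intro f
      rw [map_smul, smul_eq_mul]
      exact h2 v0 f
    rcases smul_eq_zero.1 h3 with h4 | h4
    · exact h4
    · exfalso
      apply hv0
      have h5 : t β • v0 = 0 := h4
      exact (smul_eq_zero_iff_eq _).1 h5
  have h1 := hL.fintype_card_le_finrank
  rw [Module.finrank_linearMap] at h1
  rw [Nat.card_eq_fintype_card, sq]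
  exact h1

/-- the scalar case -/
theorem scalar_case [Group.IsSolvable H] (hf : ∀ h : H, (∀ v : V, h • v = v) → h = 1) {A : Subgroup H} (hA : A.Normal)
    (hc : ∀ x ∈ A, ∀ y ∈ A, x * y = y * x)
    (hmax : ∀ A' : Subgroup H, A'.Normal → (∀ x ∈ A', ∀ y ∈ A', x * y = y * x) → A ≤ A' → A' ≤ A)
    (s : A → K) (hs : ∀ (a : A) (v : V), (a : H) • v = s a • v)
    (hlin : ∀ x, (∀ y ∈ A, x * y = y * x) → ∀ (c : K) (v : V), x • (c • v) = c • (x • v)) :
    4 * Nat.card H ≤ Nat.card V ^ 7 := by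
  classical
  obtain ⟨v0, hv0⟩ := exists_ne (0 : V)
  obtain ⟨B, hB, hAB, hBA, hBB, hZ, hE⟩ := exists_B hA hc hmax
  have hKf : Finite K := by
    refine Finite.of_injective (fun c : K => c • v0) ?_
    intro c d hcd
    have h3 : (c - d) • v0 = 0 := by
      rw [sub_smul]
      exact sub_eq_zero.2 hcd
    rcases smul_eq_zero.1 h3 with h4 | h4
    · exact sub_eq_zero.1 h4
    · exact absurd h4 hv0
  have hsi : Function.Injective s := by
    intro a b hab
    apply Subtype.ext
    have h1 : (b : H)⁻¹ * (a : H) = 1 := by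
      refine hf _ fun v => ?_
      rw [mul_smul, hs a, hab, ← hs b, ← mul_smul, inv_mul_cancel, one_smul]
    exact (inv_mul_eq_one.1 h1).symm
  have hs1 : s 1 = 1 := by
    have h1 := hs 1 v0
    have h2 : ((1 : A) : H) • v0 = v0 := by
      rw [Subgroup.coe_one, one_smul]
    rw [h2] at h1
    have h3 : (s 1 - 1) • v0 = 0 := by
      rw [sub_smul, one_smul, ← h1, sub_self]
    rcases smul_eq_zero.1 h3 with h4 | h4
    · exact sub_eq_zero.1 h4
    · exact absurd h4 hv0
  have hsm : ∀ a b : A, s (a * b) = s a * s b := by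
    intro a b
    have h1 := hs (a * b) v0
    have h2 : ((a * b : A) : H) • v0 = s a • s b • v0 := by
      rw [Subgroup.coe_mul, mul_smul, hs b, hs a]
    rw [h2, ← mul_smul] at h1
    have h3 : (s (a * b) - s a * s b) • v0 = 0 := by
      rw [sub_smul, ← h1, sub_self]
    rcases smul_eq_zero.1 h3 with h4 | h4
    · exact sub_eq_zero.1 h4
    · exact absurd h4 hv0
  let sA : A →* K := { toFun := s, map_one' := hs1, map_mul' := hsm }
  have hcyc : IsCyclic A := isCyclic_of_injective_ringHom sA hsi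
  have hq : 2 ≤ Nat.card K := Finite.one_lt_card
  have ha : Nat.card A ≤ Nat.card K := Nat.card_le_card_of_injective s hsi
  have hV : Nat.card V = Nat.card K ^ Module.finrank K V := Module.natCard_eq_pow_finrank
  have hm : 1 ≤ Module.finrank K V := Module.finrank_pos
  have hb := card_map_le hf hAB hBA hBB hZ s hs hlin
  have hb1 : 1 ≤ Nat.card (B.map (QuotientGroup.mk' A)) := Nat.card_pos
  rw [hV]
  refine num_ir hq hm hb1 hb ha ?_
  refine (card_le_cent A).trans (Nat.mul_le_mul card_aut_cyclic ?_)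
  refine (card_cent hc hAB hE).trans (Nat.mul_le_mul_right _ card_aut)

end Pool.Agent.H79.SL
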