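import Pool.Agent.H79.SL.IrD

/-!
# Irreducible solvable linear groups: the case where the ring generated by the maximal abelian normal subgroup has no zero divisors
-/

set_option autoImplicit false

namespace Pool.Agent.H79.SL

variable {V H : Type} [AddCommGroup V] [Finite V] [Nontrivial V] [Group H] [Finite H] [DistribMulAction H V]

/-- the case where every non-zero element of the ring generated by `A` is injective -/
theorem case2 [Group.IsSolvable H] (hf : ∀ h : H, (∀ v : V, h • v = v) → h = 1) {A : Subgroup H} (hA : A.Normal)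
    (hc : ∀ x ∈ A, ∀ y ∈ A, x * y = y * x)
    (hmax : ∀ A' : Subgroup H, A'.Normal → (∀ x ∈ A', ∀ y ∈ A', x * y = y * x) → A ≤ A' → A' ≤ A)
    (hR : ∀ r ∈ Subring.closure {f : AddMonoid.End V | ∃ a ∈ A, ∀ v, f v = a • v}, r ≠ 0 → Function.Injective r) :
    4 * Nat.card H ≤ Nat.card V ^ 7 := by
  classical
  obtain ⟨v0, hv0⟩ := exists_ne (0 : V)
  let S : Set (AddMonoid.End V) := {f : AddMonoid.End V | ∃ a ∈ A, ∀ v, f v = a • v}
  have hcomm : ∀ x ∈ S, ∀ y ∈ S, x * y = y * x := by
    rintro x ⟨a, ha, hx⟩ y ⟨b, hb, hy⟩
    ext v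
    show x (y v) = y (x v)
    rw [hx, hy, hx, hy, ← mul_smul, ← mul_smul, hc a ha b hb]
  let R : Subring (AddMonoid.End V) := Subring.closure S
  have hfin : Finite (AddMonoid.End V) :=
    Finite.of_injective (fun f : AddMonoid.End V => (f : V → V)) DFunLike.coe_injective
  have hcr : IsMulCommutative R := Subring.isMulCommutative_closure hcomm
  let cr : CommRing R := { R.toRing with mul_comm := fun x y => hcr.is_comm.comm x y }
  have h0 : ∀ x y : R, x * y = 0 → x ≠ 0 → y = 0 := by
    intro x y hxy hx
    have h1 : Function.Injective (x : AddMonoid.End V) := hR x x.2 (fun h => hx (Subtype.ext h))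
    apply Subtype.ext
    ext v
    apply h1
    have h2 : (x : AddMonoid.End V) ((y : AddMonoid.End V) v) = 0 := by
      have h3 := congrArg (fun z : R => (z : AddMonoid.End V) v) hxy
      exact h3
    rw [h2]
    exact (map_zero _).symm
  have hnt : Nontrivial R := by
    refine ⟨⟨0, 1, ?_⟩⟩
    intro h
    apply hv0
    have h3 := congrArg (fun z : R => (z : AddMonoid.End V) v0) h
    exact h3.symm
  have hnz : NoZeroDivisors R := by
    refine ⟨fun {x y} hxy => ?_⟩
    by_cases hx : x = 0
    · exact Or.inl hx
    · exact Or.inr (h0 x y hxy hx)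
  have hdom : IsDomain R := NoZeroDivisors.to_isDomain R
  let fd : Field R := (Finite.isField_of_domain R).toField
  let md : Module R V :=
    { smul := fun r v => (r : AddMonoid.End V) v
      one_smul := fun v => rfl
      mul_smul := fun r t v => rfl
      smul_zero := fun r => map_zero (r : AddMonoid.End V)
      smul_add := fun r v w => map_add (r : AddMonoid.End V) v w
      add_smul := fun r t v => rfl
      zero_smul := fun v => rfl }
  let s : A → R := fun a => ⟨DistribMulAction.toAddMonoidEnd H V a, Subring.subset_closure ⟨a, a.2, fun v => rfl⟩⟩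
  refine scalar_case (K := R) hf hA hc hmax s (fun a v => rfl) ?_
  intro x hx c v
  obtain ⟨c, hc'⟩ := c
  show x • (c v) = c (x • v)
  induction hc' using Subring.closure_induction generalizing v with
  | mem f hf' =>
    obtain ⟨a, ha, hfa⟩ := hf'
    rw [hfa, hfa, ← mul_smul, ← mul_smul, hx a ha]
  | zero => exact smul_zero x
  | one => rfl
  | add f g _ _ ihf ihg =>
    show x • (f v + g v) = f (x • v) + g (x • v)
    rw [smul_add, ihf, ihg]
  | neg f _ ihf =>
    show x • (-(f v)) = -(f (x • v))
    rw [smul_neg, ihf]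
  | mul f g _ _ ihf ihg =>
    show x • (f (g v)) = f (g (x • v))
    rw [ihf, ihg]

end Pool.Agent.H79.SL
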