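import Pool.Agent.H79.SL.IrE
import Pool.Agent.H81.SV.Ir1

/-!
# THEOREM I: `4 |G / C_G(V)| ≤ |V| ^ 7` for a finite solvable group `G` acting irreducibly on a finite abelian group `V`
-/

set_option autoImplicit false

namespace Pool.Agent.H79.SL

private theorem thmI_aux (n : ℕ) : ∀ (G V : Type) [Group G] [Finite G] [Group.IsSolvable G] [AddCommGroup V] [Finite V] [Nontrivial V]
    [DistribMulAction G V], (∀ U : AddSubgroup V, (∀ g : G, ∀ u ∈ U, g • u ∈ U) → U = ⊥ ∨ U = ⊤) → Nat.card V < n →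
    4 * (MulAction.toPermHom G V).ker.index ≤ Nat.card V ^ 7 := by
  classical
  induction n with
  | zero => intro G V _ _ _ _ _ _ _ _ h; omega
  | succ n IH =>
    intro G V _ _ _ _ _ _ _ hirr hn
    let X : Subgroup (Equiv.Perm V) := (MulAction.toPermHom G V).range
    have hXs : Group.IsSolvable X := Group.isSolvable_of_surjective (MulAction.toPermHom G V).rangeRestrict_surjective
    have hX : ∀ x : X, ∃ g : G, ∀ v : V, (x : Equiv.Perm V) v = g • v := by
      rintro ⟨x, g, rfl⟩
      exact ⟨g, fun v => rfl⟩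
    let act : DistribMulAction X V :=
      { smul := fun x v => (x : Equiv.Perm V) v
        one_smul := fun v => rfl
        mul_smul := fun x y v => rfl
        smul_zero := fun x => by
          obtain ⟨g, hg⟩ := hX x
          exact (hg 0).trans (smul_zero g)
        smul_add := fun x v w => by
          obtain ⟨g, hg⟩ := hX x
          exact (hg (v + w)).trans ((smul_add g v w).trans (congrArg₂ (· + ·) (hg v).symm (hg w).symm)) }
    have hf : ∀ h : X, (∀ v : V, h • v = v) → h = 1 := by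
      intro h hh
      apply Subtype.ext
      ext v
      exact hh v
    have hirr' : ∀ U : AddSubgroup V, (∀ h : X, ∀ u ∈ U, h • u ∈ U) → U = ⊥ ∨ U = ⊤ := by
      intro U hU
      refine hirr U fun g u hu => ?_
      exact hU ⟨MulAction.toPermHom G V g, g, rfl⟩ u hu
    rw [Subgroup.index_ker]
    show 4 * Nat.card X ≤ Nat.card V ^ 7
    obtain ⟨A, hA⟩ := (Set.toFinite {A : Subgroup X | A.Normal ∧ ∀ x ∈ A, ∀ y ∈ A, x * y = y * x}).exists_maximal
      ⟨⊥, inferInstanceAs (⊥ : Subgroup X).Normal, by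
        intro x hx y hy
        rw [Subgroup.mem_bot.1 hx, Subgroup.mem_bot.1 hy]⟩
    by_cases hR : ∀ r ∈ Subring.closure {f : AddMonoid.End V | ∃ a ∈ A, ∀ v, f v = a • v}, r ≠ 0 → Function.Injective r
    · exact case2 hf hA.1.1 hA.1.2 (fun A' h1 h2 h3 => hA.2 ⟨h1, h2⟩ h3) hR
    · push Not at hR
      obtain ⟨r, hr, hr0, hri⟩ := hR
      refine Pool.Agent.H81.SV.case1 hf hirr' A hA.1.1 hA.1.2 r hr hr0 hri ?_
      intro G' V' _ _ _ _ _ _ _ hirr'' hlt
      exact IH G' V' hirr'' (by omega)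

/-- THEOREM I -/
theorem thmI (G V : Type) [Group G] [Finite G] [Group.IsSolvable G] [AddCommGroup V] [Finite V] [Nontrivial V]
    [DistribMulAction G V] (hirr : ∀ U : AddSubgroup V, (∀ g : G, ∀ u ∈ U, g • u ∈ U) → U = ⊥ ∨ U = ⊤) :
    4 * (MulAction.toPermHom G V).ker.index ≤ Nat.card V ^ 7 :=
  thmI_aux (Nat.card V + 1) G V hirr (Nat.lt_succ_self _)

end Pool.Agent.H79.SL
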