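import Pool.Agent.H29.NS.Tau
import Pool.Agent.H79.SL.Loc

/-!
# THEOREM SOLV (MP_576eff_lc): the narrow proof of LG

`LG`: a family `B` of literals, indexed by the elements of a solvable group, closed under `x y⁻¹ z`: if for each prime `l` some element of
`g (oo X l)` is in `B`, then some element of `g X` is in `B` (`X` a normal subgroup). The contexts have at most two literals more than `Δ`.
-/

set_option autoImplicit false

open Set

namespace Pool.Agent.H79.SL

open Pool.Agent.H42.CS Pool.Agent.H29.NS

variable {Rel : ℕ → Type} {P : Type} {T : Set (Ax Rel)} {C : Circuit Rel P} {G : Type} [Group G]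

theorem nxi_normal [Finite G] [Group.IsSolvable G] {X : Subgroup G} (hX : X.Normal) (i : ℕ) : (nx^[i] X).Normal := by
  induction i with
  | zero => exact hX
  | succ i ih =>
    rw [Function.iterate_succ_apply']
    exact nx_normal ih

theorem le_nxi [Finite G] [Group.IsSolvable G] {X : Subgroup G} (hX : X.Normal) (i : ℕ) : X ≤ nx^[i] X := by
  induction i with
  | zero => exact le_rfl
  | succ i ih =>
    rw [Function.iterate_succ_apply']
    exact ih.trans (le_nx (nxi_normal hX i))

/-- the series ends with the whole group -/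
theorem nxi_top [Finite G] [Group.IsSolvable G] {X : Subgroup G} (hX : X.Normal) :
    ∃ i, nx^[i] X = ⊤ := by
  by_contra hcon
  push Not at hcon
  have h1 : ∀ i, (nx^[i] X).index + i ≤ X.index := by
    intro i
    induction i with
    | zero => simp
    | succ i ih =>
      have h2 := (nx_spec (nxi_normal hX i) (hcon i)).2.1
      have h3 : (nx (nx^[i] X)).index < (nx^[i] X).index := Subgroup.index_strictAnti h2
      rw [Function.iterate_succ_apply']
      omega
  have h4 := h1 (X.index + 1)
  omega

/-- the powers of a quotient of two members -/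
theorem pow_cl {B : G → Lit C.N} (hB : ∀ x y z, Rf T C [B x, B y, B z, (B (x * y⁻¹ * z)).neg]) (b c : G) (e : ℕ) :
    Rf T C [B b, B c, (B (b * (c⁻¹ * b) ^ e)).neg] := by
  induction e with
  | zero =>
    rw [pow_zero, mul_one]
    exact Rf.triv (B b) (by simp) (by simp) (by simp)
  | succ e ih =>
    have h1 : b * (c⁻¹ * b) ^ (e + 1) = (b * (c⁻¹ * b) ^ e) * c⁻¹ * b := by
      rw [pow_succ]
      group
    rw [h1]
    refine Rf.cut (B (b * (c⁻¹ * b) ^ e)) ?_ ?_ (by simp)
    · refine (hB (b * (c⁻¹ * b) ^ e) c b).mono ?_ (by simp)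
      intro x hx
      simp only [List.mem_cons, List.not_mem_nil, or_false] at hx ⊢
      tauto
    · refine ih.mono ?_ (by simp)
      intro x hx
      simp only [List.mem_cons, List.not_mem_nil, or_false] at hx ⊢
      tauto

theorem LG [Finite G] [Group.IsSolvable G] {ι : Type} {pr : ι → ℕ} (ne : Nonempty ι)
    (all : ∀ p : ℕ, p.Prime → p ∣ Nat.card G → ∃ l, pr l = p) {X : Subgroup G} (hX : X.Normal) (B : G → Lit C.N)
    (hB : ∀ x y z, Rf T C [B x, B y, B z, (B (x * y⁻¹ * z)).neg]) (g : G) (Δ : List (Lit C.N)) (hΔ : Δ.length ≤ 12)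
    (h0 : ∀ b, g⁻¹ * b ∈ X → Rf T C (B b :: Δ))
    (hl : ∀ l : ι, ∀ Δ' : List (Lit C.N), (∀ x ∈ Δ, x ∈ Δ') → Δ'.length ≤ Δ.length + 1 →
      (∀ b, g⁻¹ * b ∈ oo X (pr l) → Rf T C (B b :: Δ')) → Rf T C Δ') :
    Rf T C Δ := by
  have key : ∀ i, ∀ b, g⁻¹ * b ∈ nx^[i] X → Rf T C (B b :: Δ) := by
    intro i
    induction i with
    | zero => exact h0
    | succ i ih =>
      intro b hb
      rw [Function.iterate_succ_apply'] at hb
      by_cases htop : nx^[i] X = ⊤
      · exact ih b (by rw [htop]; exact Subgroup.mem_top _)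
      · obtain ⟨p, k, hp, hpd, hk⟩ := nx_prime (nxi_normal hX i) htop
        obtain ⟨l, rfl⟩ := all p hp hpd
        refine hl l (B b :: Δ) (fun x hx => List.mem_cons_of_mem _ hx) (by simp) ?_
        intro c hc
        obtain ⟨e, he⟩ := pow_ex hX (nxi_normal hX i) (nx_normal (nxi_normal hX i)) (le_nxi hX i) hk hb hc
        refine Rf.cut (B (b * (c⁻¹ * b) ^ e)) ?_ ?_ (by simp only [List.length_cons]; omega)
        · refine (ih _ he).mono ?_ (by simp only [List.length_cons]; omega)
          intro x hx
          simp only [List.mem_cons] at hx ⊢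
          tauto
        · refine (pow_cl hB b c e).mono ?_ (by simp only [List.length_cons]; omega)
          intro x hx
          simp only [List.mem_cons, List.not_mem_nil, or_false] at hx ⊢
          tauto
  obtain ⟨i, hi⟩ := nxi_top hX
  obtain ⟨l⟩ := ne
  refine hl l Δ (fun x hx => hx) (by omega) fun b _ => key i b ?_
  rw [hi]
  exact Subgroup.mem_top _

end Pool.Agent.H79.SL
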