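import Pool.Agent.H79.SL.Bas

/-!
# THEOREM SOLV (MP_576eff_lc): lifting along a step of the series
-/

set_option autoImplicit false

open Set

namespace Pool.Agent.H79.SL

open Pool.Agent.H42.CS Pool.Agent.H29.NS

variable {Rel : ℕ → Type} {P : Type} {T : Set (Ax Rel)} {C : Circuit Rel P} {G : Type} [Group G]
  {ι : Type} {pr : ι → ℕ} (D : Loc T C G ι pr)

namespace Loc

/-- from a member of the component `l` a member of the component `t`, in the same coset -/
theorem comp (l t : ι) {h : G} {Δ : List (Lit C.N)} (hm : pl (D.be l h) ∈ Δ)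
    (hl : oo (⊥ : Subgroup G) (pr t) ≤ oo ⊥ (pr l) ⊔ oo ⊥ (pr t)) (hn : (oo (⊥ : Subgroup G) (pr t)).Normal)
    (H : ∀ g h', h⁻¹ * g ∈ oo ⊥ (pr l) → g⁻¹ * h' ∈ oo ⊥ (pr t) →
      Rf T C (pl (D.be t h') :: mi (D.bb t (oo ⊥ (pr l) ⊔ oo ⊥ (pr t)) h) :: Δ)) (hw : Δ.length ≤ 13) : Rf T C Δ := by
  refine Rf.cut (pl (D.bb t (oo ⊥ (pr l) ⊔ oo ⊥ (pr t)) h)) ?_ ?_ (by omega)
  · refine (D.I2 l t h).mono ?_ (by simp only [List.length_cons]; omega)
    intro x hx
    simp only [List.mem_cons, List.not_mem_nil, or_false] at hx ⊢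
    rcases hx with rfl | rfl
    · exact Or.inr hm
    · exact Or.inl rfl
  · refine D.bbF t (D.roo l t) hl (g := h) (List.mem_cons_self) (fun h' hh' => ?_)
      (by simp only [List.length_cons]; omega)
    obtain ⟨g, hg1, hg2⟩ := mem_fac hn hh'
    exact H g h' hg1 hg2

variable [Finite G] [Group.IsSolvable G]

private theorem lift_bb {M : Subgroup G} (hM : M ∈ D.MM) (p : ι) (g0 : G) :
    Rf T C [pl (D.Y (nx M) g0), pl (D.bb p (nx M ⊔ oo M (pr p)) g0)] := by
  have hMn := D.mn M hM
  have hV := D.mnx M hM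
  have hVn := D.mn _ hV
  have hR := D.mno M hM p
  have hRb : oo ⊥ (pr p) ≤ nx M ⊔ oo M (pr p) := (oo_bot_le hMn _).trans le_sup_right
  have hbn : ∀ q : ℕ, (oo (⊥ : Subgroup G) q).Normal := fun q => oo_normal inferInstance q
  refine LG D.ne D.all hVn (fun h => mi (D.bb p (nx M ⊔ oo M (pr p)) h)) ?_ g0 _ (by simp) ?_ ?_
  · intro x y z
    refine (D.bb_cl p hR hRb x y z).mono ?_ (by simp)
    intro x hx
    simp only [List.mem_cons, List.not_mem_nil, or_false] at hx ⊢
    rcases hx with rfl | rfl | rfl | rfl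
    · simp
    · simp
    · simp
    · exact Or.inr (Or.inr (Or.inr rfl))
  · intro b hb
    refine (D.bb_mono p hR hR hRb le_rfl (g := b) (g' := g0) (le_sup_left (a := nx M) hb)).mono ?_ (by simp)
    intro x hx
    simp only [List.mem_cons, List.not_mem_nil, or_false] at hx ⊢
    tauto
  · intro l Δ' hΔ hw H
    simp only [List.length_cons, List.length_nil] at hw
    refine Rf.cut (pl (D.bb l (oo (nx M) (pr l)) g0)) ?_ ?_ (by omega)
    · refine (D.YT hV l g0).mono ?_ (by simp only [List.length_cons]; omega)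
      intro x hx
      simp only [List.mem_cons, List.not_mem_nil, or_false] at hx
      rcases hx with rfl | rfl
      · exact List.mem_cons_of_mem _ (hΔ _ (by simp))
      · exact List.mem_cons_self
    · refine D.bbF l (D.moo _ hV l) (oo_bot_le hVn _) (g := g0) (List.mem_cons_self) (fun h hh => ?_)
        (by simp only [List.length_cons]; omega)
      refine D.comp l p (h := h) (List.mem_cons_self) le_sup_right (hbn _) (fun g h' hg hh' => ?_)
        (by simp only [List.length_cons]; omega)
      have hg1 : g0⁻¹ * g ∈ oo (nx M) (pr l) := mem_tr hh (oo_bot_le hVn _ hg)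
      refine Rf.cut (pl (D.bb p (nx M ⊔ oo M (pr p)) g)) ?_ ?_ (by simp only [List.length_cons]; omega)
      · refine (D.bbT p hR hRb (hRb hh')).mono ?_ (by simp only [List.length_cons]; omega)
        intro x hx
        simp only [List.mem_cons, List.not_mem_nil, or_false] at hx ⊢
        tauto
      · refine (H g hg1).mono ?_ (by simp only [List.length_cons]; omega)
        intro x hx
        simp only [List.mem_cons] at hx ⊢
        rcases hx with rfl | hx
        · exact Or.inl rfl
        · tauto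

/-- LIFT: an allowed coset of the next term contains an allowed coset -/
theorem lift {M : Subgroup G} (hM : M ∈ D.MM) (g0 : G) : Rf T C [pl (D.Y (nx M) g0), pl (D.Z M (nx M) g0)] := by
  have hMn := D.mn M hM
  have hV := D.mnx M hM
  have hVn := D.mn _ hV
  have hVR := D.mr _ hV
  have hle : M ≤ nx M := le_nx hMn
  by_cases htop : M = ⊤
  · have h1 : nx M = M := by rw [htop, nx_top]
    rw [h1]
    have h2 := D.ZT hM (D.mr M hM) le_rfl (mem_rf M g0)
    refine h2.mono ?_ (by simp)
    intro x hx
    simp only [List.mem_cons, List.not_mem_nil, or_false] at hx ⊢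
    tauto
  obtain ⟨q, k, hq, hqd, hk⟩ := nx_prime hMn htop
  obtain ⟨p, rfl⟩ := D.all q hq hqd
  have hR := D.mno M hM p
  have hRb : oo ⊥ (pr p) ≤ nx M ⊔ oo M (pr p) := (oo_bot_le hMn _).trans le_sup_right
  refine Rf.cut (pl (D.bb p (nx M ⊔ oo M (pr p)) g0)) ?_ ?_ (by simp)
  · refine (lift_bb D hM p g0).mono ?_ (by simp)
    intro x hx
    simp only [List.mem_cons, List.not_mem_nil, or_false] at hx ⊢
    tauto
  refine D.bbF p hR hRb (g := g0) (List.mem_cons_self) (fun h hh => ?_) (by simp)
  obtain ⟨g, hg1, hg2⟩ := mem_fac (oo_normal hMn _) hh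
  refine Rf.cut (pl (D.Y M g)) ?_ ?_ (by simp)
  · refine (D.ZT hM hVR hle hg1).mono ?_ (by simp)
    intro x hx
    simp only [List.mem_cons, List.not_mem_nil, or_false] at hx ⊢
    tauto
  refine D.YF hM (g := g) (List.mem_cons_self) (fun t => ?_) (by simp)
  by_cases htp : t = p
  · subst htp
    refine (D.bbT t (D.moo M hM t) (oo_bot_le hMn _) hg2).mono ?_ (by simp)
    intro x hx
    simp only [List.mem_cons, List.not_mem_nil, or_false] at hx ⊢
    tauto
  · have hcop : (M.relIndex (nx M)).Coprime (pr t) := by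
      rw [hk]
      refine Nat.Coprime.pow_left k ((Nat.coprime_primes (D.pp p) (D.pp t)).2 fun h => htp (D.inj h.symm))
    have hoo : oo (nx M) (pr t) = oo M (pr t) := oo_eq hMn hVn hle hcop
    have hVt : nx M ≤ oo M (pr t) := by
      rw [← hoo]
      exact le_oo hVn _
    refine Rf.cut (pl (D.bb t (oo M (pr t)) g0)) ?_ ?_ (by simp)
    · have h1 := D.YT hV t g0
      rw [hoo] at h1
      refine h1.mono ?_ (by simp)
      intro x hx
      simp only [List.mem_cons, List.not_mem_nil, or_false] at hx ⊢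
      tauto
    · refine (D.bb_mono t (D.moo M hM t) (D.moo M hM t) (oo_bot_le hMn _) le_rfl (g := g0) (g' := g)
        (hVt (mem_sy hg1))).mono ?_ (by simp)
      intro x hx
      simp only [List.mem_cons, List.not_mem_nil, or_false] at hx ⊢
      rcases hx with rfl | rfl
      · tauto
      · exact Or.inl rfl

end Loc

end Pool.Agent.H79.SL
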