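import Pool.Agent.H79.SL.Lift

/-!
# THEOREM SOLV (MP_576eff_lc): compatible components come from allowed cosets (PC), extension (EXT), existence
-/

set_option autoImplicit false

open Set

namespace Pool.Agent.H79.SL

open Pool.Agent.H42.CS Pool.Agent.H29.NS

variable {Rel : ℕ → Type} {P : Type} {T : Set (Ax Rel)} {C : Circuit Rel P} {G : Type} [Group G]
  {ι : Type} {pr : ι → ℕ} (D : Loc T C G ι pr)

namespace Loc

/-- the statement PC -/
def PC (M : Subgroup G) : Prop :=
  ∀ (l : ι) (y : G), Rf T C [mi (D.bb l (oo M (pr l)) y), pl (D.Z M (oo M (pr l)) y)]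

variable [Finite G] [Group.IsSolvable G]

private theorem hbn (q : ℕ) : (oo (⊥ : Subgroup G) q).Normal := oo_normal inferInstance q

private theorem oo_top (q : ℕ) : oo (⊤ : Subgroup G) q = ⊤ :=
  top_le_iff.1 (le_oo (G := G) (M := ⊤) inferInstance q)

private theorem pc_top : PC D ⊤ := by
  intro l y
  rw [oo_top]
  refine Rf.cut (pl (D.Y ⊤ y)) ?_ ?_ (by simp)
  · refine (D.ZT D.mt (D.mr _ D.mt) le_rfl (mem_rf ⊤ y)).mono ?_ (by simp)
    intro x hx
    simp only [List.mem_cons, List.not_mem_nil, or_false] at hx ⊢
    tauto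
  · refine D.YF D.mt (g := y) (List.mem_cons_self) (fun t => ?_) (by simp)
    rw [oo_top]
    refine Rf.cut (pl (D.bb t ⊤ 1)) ?_ ?_ (by simp)
    · refine (D.I3 t).mono ?_ (by simp)
      intro x hx
      simp only [List.mem_cons, List.not_mem_nil, or_false] at hx ⊢
      tauto
    · refine (D.bb_mono t (D.mr _ D.mt) (D.mr _ D.mt) le_top le_rfl (g := 1) (g' := y) (Subgroup.mem_top _)).mono ?_ (by simp)
      intro x hx
      simp only [List.mem_cons, List.not_mem_nil, or_false] at hx ⊢
      rcases hx with rfl | rfl
      · tauto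
      · exact Or.inl rfl

/-- from a witness in the component `u` over `y` (modulo `oo M p`) to a coset of `nx M` -/
private theorem pc_bb {M : Subgroup G} (hM : M ∈ D.MM) (ih : PC D (nx M)) (p : ι) (y : G) :
    Rf T C [mi (D.bb p (oo M (pr p)) y), pl (D.Z (nx M) (nx M ⊔ oo M (pr p)) y)] := by
  have hMn := D.mn M hM
  have hV := D.mnx M hM
  have hVn := D.mn _ hV
  have hR := D.mno M hM p
  have hRn := D.rn _ hR
  refine LG D.ne D.all hRn (fun h => mi (D.Z (nx M) (nx M ⊔ oo M (pr p)) h)) ?_ y _ (by simp) ?_ ?_
  · intro x y z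
    refine (D.Z_cl hV hR le_sup_left x y z).mono ?_ (by simp)
    intro x hx
    simp only [List.mem_cons, List.not_mem_nil, or_false] at hx ⊢
    rcases hx with rfl | rfl | rfl | rfl
    · simp
    · simp
    · simp
    · exact Or.inr (Or.inr (Or.inr rfl))
  · intro b hb
    refine (D.Z_mono hV hR hR le_sup_left le_rfl (g := b) (g' := y) hb).mono ?_ (by simp)
    intro x hx
    simp only [List.mem_cons, List.not_mem_nil, or_false] at hx ⊢
    tauto
  · intro u Δ' hΔ hw H
    simp only [List.length_cons, List.length_nil] at hw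
    refine D.bbF p (D.moo M hM p) (oo_bot_le hMn _) (g := y) (hΔ _ (by simp)) (fun x0 hx0 => ?_) (by omega)
    refine D.comp p u (h := x0) (List.mem_cons_self) le_sup_right (hbn _) (fun g x hg hx => ?_)
      (by simp only [List.length_cons]; omega)
    refine Rf.cut (pl (D.bb u (oo (nx M) (pr u)) g)) ?_ ?_ (by simp only [List.length_cons]; omega)
    · refine (D.bbT u (D.moo _ hV u) (oo_bot_le hVn _) (oo_bot_le hVn _ hx)).mono ?_ (by simp only [List.length_cons]; omega)
      intro x hx
      simp only [List.mem_cons, List.not_mem_nil, or_false] at hx ⊢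
      tauto
    refine Rf.cut (pl (D.Z (nx M) (oo (nx M) (pr u)) g)) ?_ ?_ (by simp only [List.length_cons]; omega)
    · refine (ih u g).mono ?_ (by simp only [List.length_cons]; omega)
      intro x hx
      simp only [List.mem_cons, List.not_mem_nil, or_false] at hx ⊢
      rcases hx with rfl | rfl
      · exact Or.inr (Or.inl rfl)
      · exact Or.inl rfl
    refine D.ZF hV (D.moo _ hV u) (le_oo hVn _) (g := g) (List.mem_cons_self) (fun g' hg' => ?_)
      (by simp only [List.length_cons]; omega)
    have h1 : oo M (pr p) ≤ oo (nx M ⊔ oo M (pr p)) (pr u) := le_sup_right.trans (le_oo hRn _)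
    have h2 : y⁻¹ * g' ∈ oo (nx M ⊔ oo M (pr p)) (pr u) :=
      mem_tr (h1 (mem_tr hx0 (oo_bot_le hMn _ hg))) (oo_mono hVn hRn le_sup_left _ hg')
    refine Rf.cut (pl (D.Z (nx M) (nx M ⊔ oo M (pr p)) g')) ?_ ?_ (by simp only [List.length_cons]; omega)
    · refine (D.ZT hV hR le_sup_left (mem_rf _ g')).mono ?_ (by simp only [List.length_cons]; omega)
      intro x hx
      simp only [List.mem_cons, List.not_mem_nil, or_false] at hx ⊢
      tauto
    · refine (H g' h2).mono ?_ (by simp only [List.length_cons]; omega)
      intro x hx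
      simp only [List.mem_cons] at hx ⊢
      rcases hx with rfl | hx
      · exact Or.inl rfl
      · tauto

private theorem pc_step {M : Subgroup G} (hM : M ∈ D.MM) (htop : M ≠ ⊤) (ih : PC D (nx M)) : PC D M := by
  intro l y
  have hMn := D.mn M hM
  have hV := D.mnx M hM
  have hVn := D.mn _ hV
  have hVR := D.mr _ hV
  have hle : M ≤ nx M := le_nx hMn
  obtain ⟨q, k, hq, hqd, hk⟩ := nx_prime hMn htop
  obtain ⟨p, rfl⟩ := D.all q hq hqd
  have hcop : ∀ t, t ≠ p → oo (nx M) (pr t) = oo M (pr t) := by
    intro t ht
    refine oo_eq hMn hVn hle ?_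
    rw [hk]
    exact Nat.Coprime.pow_left k ((Nat.coprime_primes (D.pp p) (D.pp t)).2 fun h => ht (D.inj h.symm))
  by_cases hlp : l = p
  · subst hlp
    have hR := D.mno M hM l
    refine Rf.cut (pl (D.Z (nx M) (nx M ⊔ oo M (pr l)) y)) ?_ ?_ (by simp)
    · refine (pc_bb D hM ih l y).mono ?_ (by simp)
      intro x hx
      simp only [List.mem_cons, List.not_mem_nil, or_false] at hx ⊢
      tauto
    refine D.ZF hV hR le_sup_left (g := y) (List.mem_cons_self) (fun g' hg' => ?_) (by simp)
    refine Rf.cut (pl (D.Z M (nx M) g')) ?_ ?_ (by simp)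
    · refine (D.lift hM g').mono ?_ (by simp)
      intro x hx
      simp only [List.mem_cons, List.not_mem_nil, or_false] at hx ⊢
      tauto
    refine D.ZF hM hVR hle (g := g') (List.mem_cons_self) (fun b hb => ?_) (by simp)
    have h1 : y⁻¹ * b ∈ oo M (pr l) ⊔ nx M := by
      rw [sup_comm]
      exact mem_tr hg' (le_sup_left (a := nx M) hb)
    obtain ⟨c, hc1, hc2⟩ := mem_fac hVn h1
    refine Rf.cut (pl (D.Y M c)) ?_ ?_ (by simp)
    · refine (D.ZT hM (D.moo M hM l) (le_oo hMn _) hc1).mono ?_ (by simp)
      intro x hx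
      simp only [List.mem_cons, List.not_mem_nil, or_false] at hx ⊢
      tauto
    refine D.YF hM (g := c) (List.mem_cons_self) (fun t => ?_) (by simp)
    by_cases htl : t = l
    · subst htl
      refine (D.bb_mono t (D.moo M hM t) (D.moo M hM t) (oo_bot_le hMn _) le_rfl (g := y) (g' := c)
        (mem_sy hc1)).mono ?_ (by simp)
      intro x hx
      simp only [List.mem_cons, List.not_mem_nil, or_false] at hx ⊢
      tauto
    · have hVt : nx M ≤ oo M (pr t) := by
        rw [← hcop t htl]
        exact le_oo hVn _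
      refine Rf.cut (pl (D.bb t (oo M (pr t)) b)) ?_ ?_ (by simp)
      · refine (D.YT hM t b).mono ?_ (by simp)
        intro x hx
        simp only [List.mem_cons, List.not_mem_nil, or_false] at hx ⊢
        tauto
      · refine (D.bb_mono t (D.moo M hM t) (D.moo M hM t) (oo_bot_le hMn _) le_rfl (g := b) (g' := c)
          (hVt hc2)).mono ?_ (by simp)
        intro x hx
        simp only [List.mem_cons, List.not_mem_nil, or_false] at hx ⊢
        rcases hx with rfl | rfl
        · tauto
        · exact Or.inl rfl
  · have h1 := ih l y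
    rw [hcop l hlp] at h1
    have hVt : nx M ≤ oo M (pr l) := by
      rw [← hcop l hlp]
      exact le_oo hVn _
    refine Rf.cut (pl (D.Z (nx M) (oo M (pr l)) y)) ?_ ?_ (by simp)
    · refine h1.mono ?_ (by simp)
      intro x hx
      simp only [List.mem_cons, List.not_mem_nil, or_false] at hx ⊢
      tauto
    refine D.ZF hV (D.moo M hM l) hVt (g := y) (List.mem_cons_self) (fun g' hg' => ?_) (by simp)
    refine Rf.cut (pl (D.Z M (nx M) g')) ?_ ?_ (by simp)
    · refine (D.lift hM g').mono ?_ (by simp)
      intro x hx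
      simp only [List.mem_cons, List.not_mem_nil, or_false] at hx ⊢
      tauto
    · refine (D.Z_mono hM hVR (D.moo M hM l) hle hVt (g := g') (g' := y) hg').mono ?_ (by simp)
      intro x hx
      simp only [List.mem_cons, List.not_mem_nil, or_false] at hx ⊢
      rcases hx with rfl | rfl
      · tauto
      · exact Or.inl rfl

/-- PC: an allowed component contains an allowed coset -/
theorem pc {M : Subgroup G} (hM : M ∈ D.MM) : PC D M := by
  have key : ∀ (n : ℕ) (M : Subgroup G), M ∈ D.MM → M.index ≤ n → PC D M := by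
    intro n
    induction n with
    | zero =>
      intro M _ h
      exact absurd (Nat.le_zero.1 h) Subgroup.index_ne_zero_of_finite
    | succ n ih =>
      intro M hM h
      by_cases htop : M = ⊤
      · subst htop
        exact pc_top D
      · refine pc_step D hM htop (ih _ (D.mnx M hM) ?_)
        have h3 : (nx M).index < M.index := Subgroup.index_strictAnti (nx_spec (D.mn M hM) htop).2.1
        omega
  exact key M.index M hM le_rfl

/-- EXT: an allowed coset of `M'` contains an allowed coset of `M` -/
theorem extI {M M' : Subgroup G} (hM : M ∈ D.MM) (hM' : M' ∈ D.MM) (h : M ≤ M') (q : G) :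
    Rf T C [pl (D.Y M' q), pl (D.Z M M' q)] := by
  have hMn := D.mn M hM
  have hMn' := D.mn M' hM'
  have hR := D.mr M' hM'
  refine LG D.ne D.all hMn' (fun g => mi (D.Z M M' g)) ?_ q _ (by simp) ?_ ?_
  · intro x y z
    refine (D.Z_cl hM hR h x y z).mono ?_ (by simp)
    intro x hx
    simp only [List.mem_cons, List.not_mem_nil, or_false] at hx ⊢
    rcases hx with rfl | rfl | rfl | rfl
    · simp
    · simp
    · simp
    · exact Or.inr (Or.inr (Or.inr rfl))
  · intro b hb
    refine (D.Z_mono hM hR hR h le_rfl (g := b) (g' := q) hb).mono ?_ (by simp)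
    intro x hx
    simp only [List.mem_cons, List.not_mem_nil, or_false] at hx ⊢
    tauto
  · intro u Δ' hΔ hw H
    simp only [List.length_cons, List.length_nil] at hw
    refine Rf.cut (pl (D.bb u (oo M' (pr u)) q)) ?_ ?_ (by omega)
    · refine (D.YT hM' u q).mono ?_ (by simp only [List.length_cons]; omega)
      intro x hx
      simp only [List.mem_cons, List.not_mem_nil, or_false] at hx
      rcases hx with rfl | rfl
      · exact List.mem_cons_of_mem _ (hΔ _ (by simp))
      · exact List.mem_cons_self
    refine D.bbF u (D.moo M' hM' u) (oo_bot_le hMn' _) (g := q) (List.mem_cons_self) (fun x hx => ?_)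
      (by simp only [List.length_cons]; omega)
    refine Rf.cut (pl (D.bb u (oo M (pr u)) x)) ?_ ?_ (by simp only [List.length_cons]; omega)
    · refine (D.bbT u (D.moo M hM u) (oo_bot_le hMn _) (mem_rf _ x)).mono ?_ (by simp only [List.length_cons]; omega)
      intro x hx
      simp only [List.mem_cons, List.not_mem_nil, or_false] at hx ⊢
      tauto
    refine Rf.cut (pl (D.Z M (oo M (pr u)) x)) ?_ ?_ (by simp only [List.length_cons]; omega)
    · refine (pc D hM u x).mono ?_ (by simp only [List.length_cons]; omega)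
      intro x hx
      simp only [List.mem_cons, List.not_mem_nil, or_false] at hx ⊢
      rcases hx with rfl | rfl
      · exact Or.inr (Or.inl rfl)
      · exact Or.inl rfl
    refine D.ZF hM (D.moo M hM u) (le_oo hMn _) (g := x) (List.mem_cons_self) (fun g' hg' => ?_)
      (by simp only [List.length_cons]; omega)
    have h2 : q⁻¹ * g' ∈ oo M' (pr u) := mem_tr hx (oo_mono hMn hMn' h _ hg')
    refine Rf.cut (pl (D.Z M M' g')) ?_ ?_ (by simp only [List.length_cons]; omega)
    · refine (D.ZT hM hR h (mem_rf _ g')).mono ?_ (by simp only [List.length_cons]; omega)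
      intro x hx
      simp only [List.mem_cons, List.not_mem_nil, or_false] at hx ⊢
      tauto
    · refine (H g' h2).mono ?_ (by simp only [List.length_cons]; omega)
      intro x hx
      simp only [List.mem_cons] at hx ⊢
      rcases hx with rfl | hx
      · exact Or.inl rfl
      · tauto

/-- some coset is allowed -/
theorem exist {M : Subgroup G} (hM : M ∈ D.MM) : Rf T C [pl (D.Z M ⊤ 1)] := by
  refine Rf.cut (pl (D.Y ⊤ 1)) ?_ ?_ (by simp)
  · refine (D.extI hM D.mt le_top 1).mono ?_ (by simp)
    intro x hx
    simp only [List.mem_cons, List.not_mem_nil, or_false] at hx ⊢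
    tauto
  · refine D.YF D.mt (g := 1) (List.mem_cons_self) (fun t => ?_) (by simp)
    rw [oo_top]
    refine (D.I3 t).mono ?_ (by simp)
    intro x hx
    simp only [List.mem_cons, List.not_mem_nil, or_false] at hx ⊢
    tauto

end Loc

end Pool.Agent.H79.SL
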