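import Mathlib

/-!
# The sectional rank of a finite group

`RankLe G r`: every elementary abelian section of `G` has order at most `p ^ r`. A finite group of rank at most `r` which embeds into a
power of the group `Q` has an order dividing `|Q| ^ r`.
-/

set_option autoImplicit false

namespace Pool.Agent.H79.SL

/-- every elementary abelian section has rank at most `r` -/
def RankLe (G : Type) [Group G] (r : ℕ) : Prop :=
  ∀ (p : ℕ) (N K : Subgroup G), p.Prime → N ≤ K → (∀ x ∈ K, x ^ p ∈ N) → (∀ x ∈ K, ∀ y ∈ K, x * y * x⁻¹ * y⁻¹ ∈ N) →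
    N.relIndex K ≤ p ^ r

theorem RankLe.of_injective {G A : Type} [Group G] [Group A] {r : ℕ} (h : RankLe G r) (f : A →* G)
    (hf : Function.Injective f) : RankLe A r := by
  intro p N K hp hNK h1 h2
  rw [← Subgroup.relIndex_map_map_of_injective N K hf]
  refine h p _ _ hp (Subgroup.map_mono hNK) ?_ ?_
  · rintro _ ⟨x, hx, rfl⟩
    exact ⟨x ^ p, h1 x hx, map_pow f x p⟩
  · rintro _ ⟨x, hx, rfl⟩ _ ⟨y, hy, rfl⟩
    exact ⟨_, h2 x hx y hy, by simp only [map_mul, map_inv]⟩

theorem RankLe.subgroup {G : Type} [Group G] {r : ℕ} (h : RankLe G r) (H : Subgroup G) : RankLe H r :=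
  h.of_injective H.subtype H.subtype_injective

theorem RankLe.of_surjective {G Q : Type} [Group G] [Group Q] {r : ℕ} (h : RankLe G r) (f : G →* Q)
    (hf : Function.Surjective f) : RankLe Q r := by
  intro p N K hp hNK h1 h2
  have h3 : (N.comap f).relIndex (K.comap f) = N.relIndex K := by
    rw [Subgroup.relIndex_comap, Subgroup.map_comap_eq_self_of_surjective hf]
  rw [← h3]
  refine h p _ _ hp (Subgroup.comap_mono hNK) ?_ ?_
  · intro x hx
    rw [Subgroup.mem_comap, map_pow]
    exact h1 _ hx
  · intro x hx y hy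
    rw [Subgroup.mem_comap]
    simp only [map_mul, map_inv]
    exact h2 _ hx _ hy

theorem RankLe.quotient {G : Type} [Group G] {r : ℕ} (h : RankLe G r) (N : Subgroup G) [N.Normal] : RankLe (G ⧸ N) r :=
  h.of_surjective (QuotientGroup.mk' N) (QuotientGroup.mk'_surjective N)

/-- a central subgroup of order `p` (or the trivial subgroup) -/
private theorem central {p : ℕ} [hp : Fact p.Prime] {S : Type} [Group S] [Finite S] {e : ℕ} (h : Nat.card S ∣ p ^ (e + 1)) :
    ∃ Z : Subgroup S, Z ≤ Subgroup.center S ∧ (∀ z ∈ Z, z ^ p = 1) ∧ Z.index ∣ p ^ e := by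
  obtain ⟨k, hk, hk'⟩ := (Nat.dvd_prime_pow hp.out).1 h
  by_cases hS : Nontrivial S
  · have hP : IsPGroup p S := IsPGroup.of_card hk'
    have hc : Nontrivial (Subgroup.center S) := hP.center_nontrivial
    have hcp : IsPGroup p (Subgroup.center S) := hP.to_subgroup _
    obtain ⟨m, hm⟩ := IsPGroup.iff_card.1 hcp
    have hdvd : p ∣ Nat.card (Subgroup.center S) := by
      rw [hm]
      refine dvd_pow_self p ?_
      rintro rfl
      rw [pow_zero] at hm
      exact (Finite.one_lt_card (α := Subgroup.center S)).ne' hm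
    obtain ⟨z, hz⟩ := exists_prime_orderOf_dvd_card' (G := Subgroup.center S) p hdvd
    have hz' : orderOf (z : S) = p := by
      rw [← hz]
      exact Subgroup.orderOf_coe z
    refine ⟨Subgroup.zpowers (z : S), ?_, ?_, ?_⟩
    · rw [Subgroup.zpowers_le]
      exact z.2
    · rintro x ⟨i, rfl⟩
      show ((z : S) ^ i) ^ p = 1
      rw [← zpow_natCast, ← zpow_mul, mul_comm, zpow_mul, zpow_natCast, ← hz', pow_orderOf_eq_one, one_zpow]
    · have h1 := Subgroup.card_mul_index (Subgroup.zpowers (z : S))
      rw [Nat.card_zpowers, hz', hk'] at h1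
      have h2 : 1 ≤ k := by
        rcases Nat.eq_zero_or_pos k with h3 | h3
        · rw [h3, pow_zero] at hk'
          exact absurd hk' (Finite.one_lt_card (α := S)).ne'
        · exact h3
      obtain ⟨j, rfl⟩ : ∃ j, k = j + 1 := ⟨k - 1, by omega⟩
      rw [pow_succ', Nat.mul_right_inj hp.out.pos.ne'] at h1
      rw [h1]
      exact pow_dvd_pow p (by omega)
  · refine ⟨⊥, bot_le, fun z hz => ?_, ?_⟩
    · rw [Subgroup.mem_bot.1 hz, one_pow]
    · have hsub : Subsingleton S := not_nontrivial_iff_subsingleton.1 hS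
      have h1 : Nat.card S = 1 := Nat.card_of_subsingleton (1 : S)
      rw [Subgroup.index_bot, h1]
      exact one_dvd _

/-- a group embedded into a product of `p`-groups -/
theorem rk_p {ι : Type} {r p : ℕ} [hp : Fact p.Prime] (e : ℕ) : ∀ (P : Type) [Group P] [Finite P] (S : ι → Type)
    [∀ j, Group (S j)] [∀ j, Finite (S j)] (φ : ∀ j, P →* S j), (∀ j, Nat.card (S j) ∣ p ^ e) →
    (∀ x, (∀ j, φ j x = 1) → x = 1) → RankLe P r → Nat.card P ≤ p ^ (r * e) := by
  classical
  induction e with
  | zero =>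
    intro P _ _ S _ _ φ hS hinj _
    have h1 : ∀ x : P, x = 1 := by
      intro x
      refine hinj x fun j => ?_
      have h2 : Nat.card (S j) = 1 := by
        have := hS j
        rwa [pow_zero, Nat.dvd_one] at this
      exact (Nat.card_eq_one_iff_unique.1 h2).1.elim _ _
    have h2 : Subsingleton P := ⟨fun x y => by rw [h1 x, h1 y]⟩
    rw [Nat.card_of_subsingleton (1 : P), mul_zero, pow_zero]
  | succ e ih =>
    intro P _ _ S _ _ φ hS hinj hr
    have hZ : ∀ j, ∃ Z : Subgroup (S j), Z ≤ Subgroup.center (S j) ∧ (∀ z ∈ Z, z ^ p = 1) ∧ Z.index ∣ p ^ e :=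
      fun j => central (hS j)
    choose Z hZ1 hZ2 hZ3 using hZ
    have hZn : ∀ j, (Z j).Normal := by
      intro j
      constructor
      intro z hz g
      have h1 : g * z = z * g := Subgroup.mem_center_iff.1 (hZ1 j hz) g
      rw [h1, mul_inv_cancel_right]
      exact hz
    let P' : Subgroup P := ⨅ j, (Z j).comap (φ j)
    have hP' : ∀ x, x ∈ P' ↔ ∀ j, φ j x ∈ Z j := by
      intro x
      rw [Subgroup.mem_iInf]
      rfl
    have hPn : P'.Normal := by
      constructor
      intro x hx g
      rw [hP'] at hx ⊢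
      intro j
      rw [map_mul, map_mul, map_inv]
      exact (hZn j).conj_mem _ (hx j) _
    have h1 : Nat.card P' ≤ p ^ r := by
      have h2 := hr p ⊥ P' hp.out bot_le (by
        intro x hx
        rw [hP'] at hx
        rw [Subgroup.mem_bot]
        refine hinj _ fun j => ?_
        rw [map_pow]
        exact hZ2 j _ (hx j)) (by
        intro x hx y hy
        rw [hP'] at hx hy
        rw [Subgroup.mem_bot]
        refine hinj _ fun j => ?_
        rw [map_mul, map_mul, map_mul, map_inv, map_inv]
        have h3 : φ j y * φ j x = φ j x * φ j y := Subgroup.mem_center_iff.1 (hZ1 j (hx j)) (φ j y)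
        rw [← h3]
        group)
      rwa [Subgroup.relIndex_bot_left] at h2
    have h2 : Nat.card (P ⧸ P') ≤ p ^ (r * e) := by
      refine ih (P ⧸ P') (fun j => S j ⧸ Z j) (fun j => QuotientGroup.map P' (Z j) (φ j) (fun x hx => (hP' x).1 hx j)) hZ3 ?_
        (hr.quotient P')
      intro x hx
      obtain ⟨x, rfl⟩ := QuotientGroup.mk'_surjective P' x
      refine (QuotientGroup.eq_one_iff x).2 ((hP' x).2 fun j => ?_)
      exact (QuotientGroup.eq_one_iff _).1 (hx j)
    have h3 := Subgroup.card_mul_index P'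
    have h4 : P'.index = Nat.card (P ⧸ P') := rfl
    rw [← h3, h4, show r * (e + 1) = r + r * e by ring, pow_add]
    exact Nat.mul_le_mul h1 h2

/-- a group embedded into a power of the group `Q` -/
theorem rk_pow {ι : Type} {Y Q : Type} [Group Y] [Finite Y] [Group Q] [Finite Q] (φ : ι → Y →* Q)
    (hinj : ∀ x, (∀ j, φ j x = 1) → x = 1) {r : ℕ} (hr : RankLe Y r) : Nat.card Y ∣ Nat.card Q ^ r := by
  classical
  have hY : Nat.card Y ≠ 0 := Nat.card_pos.ne'
  have hQ : Nat.card Q ≠ 0 := Nat.card_pos.ne'
  rw [← Nat.factorization_prime_le_iff_dvd hY (pow_ne_zero _ hQ)]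
  intro p hp
  have : Fact p.Prime := ⟨hp⟩
  rw [Nat.factorization_pow]
  show (Nat.card Y).factorization p ≤ r * (Nat.card Q).factorization p
  obtain ⟨P⟩ : Nonempty (Sylow p Y) := inferInstance
  have h1 : Nat.card P = p ^ (Nat.card Y).factorization p := P.card_eq_multiplicity
  have h2 : Nat.card P ≤ p ^ (r * (Nat.card Q).factorization p) := by
    refine rk_p (ι := ι) _ P (fun j => ((φ j).comp (P : Subgroup Y).subtype).range)
      (fun j => ((φ j).comp (P : Subgroup Y).subtype).rangeRestrict) ?_ ?_ (hr.subgroup _)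
    · intro j
      have h3 : IsPGroup p ((φ j).comp (P : Subgroup Y).subtype).range :=
        P.isPGroup'.of_surjective _ (MonoidHom.rangeRestrict_surjective _)
      obtain ⟨k, hk⟩ := IsPGroup.iff_card.1 h3
      rw [hk]
      refine pow_dvd_pow p ?_
      rw [← hp.pow_dvd_iff_le_factorization hQ, ← hk]
      exact Subgroup.card_subgroup_dvd_card _
    · intro x hx
      apply Subtype.ext
      refine hinj _ fun j => ?_
      exact congrArg Subtype.val (hx j)
  rw [h1] at h2
  exact (Nat.pow_le_pow_iff_right hp.one_lt).1 h2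

end Pool.Agent.H79.SL
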