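import Pool.Agent.H79.SL.Oo
import Pool.Agent.H79.SL.Aut

/-!
# THEOREM SOLV (MP_576eff_lc): the index of `O_p'` in a solvable group is bounded by the largest Sylow subgroup

`core`: a finite solvable group `Q` without nontrivial normal `p'`-subgroups has a normal `p`-subgroup `P` with `C(P) ≤ P`.
`oo_index_le`: `[G : O_p'(G)] ≤ S ^ (1 + log_2 S)` if the `p`-subgroups of `G` have at most `S` elements.
-/

set_option autoImplicit false

open scoped commutatorElement

namespace Pool.Agent.H79.SL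

/-- an abelian normal subgroup inside a nontrivial normal subgroup of a solvable group -/
theorem exists_abelian {R : Type} [Group R] [Group.IsSolvable R] {K : Subgroup R} (hK : K.Normal) (hne : K ≠ ⊥) :
    ∃ A : Subgroup R, A.Normal ∧ A ≤ K ∧ A ≠ ⊥ ∧ ∀ x ∈ A, ∀ y ∈ A, x * y = y * x := by
  classical
  let F : ℕ → Subgroup R := fun i => Nat.rec K (fun _ X => ⁅X, X⁆) i
  have hF0 : F 0 = K := rfl
  have hFs : ∀ i, F (i + 1) = ⁅F i, F i⁆ := fun i => rfl
  have hn : ∀ i, (F i).Normal := by
    intro i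
    induction i with
    | zero => exact hK
    | succ i ih =>
      rw [hFs]
      exact @Subgroup.commutator_normal R _ (F i) (F i) ih ih
  have hle : ∀ i, F i ≤ K := by
    intro i
    induction i with
    | zero => exact le_rfl
    | succ i ih =>
      rw [hFs]
      have := hn i
      exact (@Subgroup.commutator_le_left R _ (F i) (F i) this).trans ih
  have hd : ∀ i, F i ≤ derivedSeries R i := by
    intro i
    induction i with
    | zero => exact le_top
    | succ i ih =>
      rw [hFs, derivedSeries_succ]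
      exact Subgroup.commutator_mono ih ih
  obtain ⟨n, hn0⟩ := (Group.isSolvable_def R).1 inferInstance
  obtain ⟨i, hi1, hi2⟩ : ∃ i, F i ≠ ⊥ ∧ F (i + 1) = ⊥ := by
    by_contra hcon
    push Not at hcon
    have : ∀ i, F i ≠ ⊥ := by
      intro i
      induction i with
      | zero => exact hne
      | succ i ih => exact hcon i ih
    exact this n (le_bot_iff.1 ((hd n).trans_eq hn0))
  refine ⟨F i, hn i, hle i, hi1, ?_⟩
  intro x hx y hy
  rw [hFs] at hi2
  have h1 : ⁅x, y⁆ ∈ ⁅F i, F i⁆ := Subgroup.commutator_mem_commutator hx hy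
  rw [hi2, Subgroup.mem_bot, commutatorElement_eq_one_iff_mul_comm] at h1
  exact h1

/-- `x ^ n y = w ^ n y x ^ n` for `w = x y x⁻¹ y⁻¹` commuting with `x` -/
theorem pow_comm {R : Type} [Group R] {x y w : R} (hw : x * y = w * (y * x)) (hc : x * w = w * x) (n : ℕ) :
    x ^ n * y = w ^ n * (y * x ^ n) := by
  induction n with
  | zero => simp
  | succ n ih =>
    have h1 : x * w ^ n = w ^ n * x := (Commute.pow_right (show Commute x w from hc) n)
    calc x ^ (n + 1) * y = x * (x ^ n * y) := by rw [pow_succ', mul_assoc]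
      _ = x * (w ^ n * (y * x ^ n)) := by rw [ih]
      _ = (x * w ^ n) * (y * x ^ n) := by rw [mul_assoc]
      _ = w ^ n * ((x * y) * x ^ n) := by rw [h1]; simp only [mul_assoc]
      _ = w ^ n * (w * (y * x) * x ^ n) := by rw [hw]
      _ = w ^ (n + 1) * (y * x ^ (n + 1)) := by
        rw [pow_succ w, pow_succ' x]
        simp only [mul_assoc]

theorem core {Q : Type} [Group Q] [Finite Q] [Group.IsSolvable Q] {p : ℕ} (hp : p.Prime)
    (h : ∀ N : Subgroup Q, N.Normal → (Nat.card N).Coprime p → N = ⊥) :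
    ∃ P : Subgroup Q, P.Normal ∧ IsPGroup p P ∧ Subgroup.centralizer (P : Set Q) ≤ P := by
  classical
  have : Fact p.Prime := ⟨hp⟩
  obtain ⟨P, hP⟩ := (Set.toFinite {P : Subgroup Q | P.Normal ∧ IsPGroup p P}).exists_maximal
    ⟨⊥, inferInstance, IsPGroup.of_bot⟩
  have hPn : P.Normal := hP.1.1
  have hPp : IsPGroup p P := hP.1.2
  refine ⟨P, hPn, hPp, ?_⟩
  by_contra hC
  have hCn : (Subgroup.centralizer (P : Set Q)).Normal := inferInstance
  let f : Q →* Q ⧸ P := QuotientGroup.mk' P
  have hf1 : ∀ x, f x = 1 ↔ x ∈ P := fun x => QuotientGroup.eq_one_iff x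
  have hfs : Function.Surjective f := QuotientGroup.mk'_surjective P
  have hKn : ((Subgroup.centralizer (P : Set Q)).map f).Normal := hCn.map f hfs
  have hKne : (Subgroup.centralizer (P : Set Q)).map f ≠ ⊥ := by
    intro h1
    apply hC
    intro x hx
    have h2 : f x ∈ (Subgroup.centralizer (P : Set Q)).map f := Subgroup.mem_map_of_mem f hx
    rw [h1, Subgroup.mem_bot] at h2
    exact (hf1 x).1 h2
  obtain ⟨A, hAn, hAK, hAne, hAc⟩ := exists_abelian hKn hKne
  have hcard : Nat.card A ≠ 1 := fun h1 => hAne (Subgroup.card_eq_one.1 h1)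
  obtain ⟨q, hq, hqd⟩ := Nat.exists_prime_and_dvd hcard
  have : Fact q.Prime := ⟨hq⟩
  let B : Subgroup (Q ⧸ P) :=
    { carrier := {x | x ∈ A ∧ x ^ q = 1}
      mul_mem' := by
        rintro x y ⟨hx, hx'⟩ ⟨hy, hy'⟩
        refine ⟨mul_mem hx hy, ?_⟩
        have hc : Commute x y := hAc x hx y hy
        rw [hc.mul_pow, hx', hy', one_mul]
      one_mem' := ⟨one_mem _, one_pow _⟩
      inv_mem' := by
        rintro x ⟨hx, hx'⟩
        exact ⟨inv_mem hx, by rw [inv_pow, hx', inv_one]⟩ }
  have hBn : B.Normal := by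
    constructor
    rintro x ⟨hx, hx'⟩ g
    exact ⟨hAn.conj_mem x hx g, by rw [conj_pow, hx', mul_one, mul_inv_cancel]⟩
  have hBq : IsPGroup q B := by
    rintro ⟨x, hx, hx'⟩
    refine ⟨1, ?_⟩
    rw [pow_one]
    exact Subtype.ext hx'
  obtain ⟨xb, hxb, hxb1⟩ : ∃ x ∈ B, x ≠ 1 := by
    obtain ⟨x, hx⟩ := exists_prime_orderOf_dvd_card' (G := A) q hqd
    refine ⟨(x : Q ⧸ P), ⟨x.2, ?_⟩, ?_⟩
    · have h3 := pow_orderOf_eq_one x
      rw [hx] at h3
      have h4 := congrArg (Subtype.val) h3
      simpa using h4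
    · intro h2
      have h3 : x = 1 := Subtype.ext h2
      rw [h3, orderOf_one] at hx
      exact hq.one_lt.ne hx
  by_cases hqp : q = p
  · subst hqp
    have hN : IsPGroup q (B.comap f) := by
      refine IsPGroup.comap_of_ker_isPGroup hBq f ?_
      have h1 : f.ker = P := QuotientGroup.ker_mk' P
      rw [h1]
      exact hPp
    have hle : P ≤ B.comap f := by
      intro x hx
      rw [Subgroup.mem_comap, (hf1 x).2 hx]
      exact one_mem _
    have h2 : B.comap f ≤ P := hP.2 ⟨hBn.comap f, hN⟩ hle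
    obtain ⟨x, rfl⟩ := hfs xb
    exact hxb1 ((hf1 x).2 (h2 hxb))
  · have hcomm : ∀ x y : Q, x ∈ Subgroup.centralizer (P : Set Q) → y ∈ Subgroup.centralizer (P : Set Q) →
        f x ∈ B → f y ∈ B → x * y = y * x := by
      intro x y hx hy hfx hfy
      have hw : x * y = (x * y * x⁻¹ * y⁻¹) * (y * x) := by group
      have hwP : x * y * x⁻¹ * y⁻¹ ∈ P := by
        rw [← hf1, map_mul, map_mul, map_mul, map_inv, map_inv, hAc _ hfx.1 _ hfy.1]
        group
      have hc : x * (x * y * x⁻¹ * y⁻¹) = (x * y * x⁻¹ * y⁻¹) * x := by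
        have h1 := Subgroup.mem_centralizer_iff.1 hx _ hwP
        exact h1.symm
      have h1 := pow_comm hw hc q
      have hxq : x ^ q ∈ P := by
        rw [← hf1, map_pow]
        exact hfx.2
      have h2 : x ^ q * y = y * x ^ q := Subgroup.mem_centralizer_iff.1 hy _ hxq
      rw [h2] at h1
      have h3 : (x * y * x⁻¹ * y⁻¹) ^ q = 1 := by
        have h4 : (x * y * x⁻¹ * y⁻¹) ^ q * (y * x ^ q) = 1 * (y * x ^ q) := by rw [one_mul]; exact h1.symm
        exact mul_right_cancel h4
      obtain ⟨k, hk⟩ := hPp ⟨_, hwP⟩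
      have h5 : (x * y * x⁻¹ * y⁻¹) ^ (p ^ k) = 1 := congrArg Subtype.val hk
      have h6 : orderOf (x * y * x⁻¹ * y⁻¹) ∣ 1 := by
        have h7 : Nat.Coprime q (p ^ k) := Nat.Coprime.pow_right k ((Nat.coprime_primes hq hp).2 hqp)
        rw [← h7]
        exact Nat.dvd_gcd (orderOf_dvd_of_pow_eq_one h3) (orderOf_dvd_of_pow_eq_one h5)
      have h8 : x * y * x⁻¹ * y⁻¹ = 1 := orderOf_eq_one_iff.1 (Nat.dvd_one.1 h6)
      rw [h8, one_mul] at hw
      exact hw
    let U : Subgroup Q :=
      { carrier := {x | x ∈ Subgroup.centralizer (P : Set Q) ∧ f x ∈ B ∧ x ^ q = 1}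
        mul_mem' := by
          rintro x y ⟨hx, hx', hx''⟩ ⟨hy, hy', hy''⟩
          refine ⟨mul_mem hx hy, by rw [map_mul]; exact mul_mem hx' hy', ?_⟩
          have hc : Commute x y := hcomm x y hx hy hx' hy'
          rw [hc.mul_pow, hx'', hy'', one_mul]
        one_mem' := ⟨one_mem _, by rw [map_one]; exact one_mem _, one_pow _⟩
        inv_mem' := by
          rintro x ⟨hx, hx', hx''⟩
          exact ⟨inv_mem hx, by rw [map_inv]; exact inv_mem hx', by rw [inv_pow, hx'', inv_one]⟩ }
    have hUn : U.Normal := by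
      constructor
      rintro x ⟨hx, hx', hx''⟩ g
      refine ⟨hCn.conj_mem x hx g, ?_, by rw [conj_pow, hx'', mul_one, mul_inv_cancel]⟩
      rw [map_mul, map_mul, map_inv]
      exact hBn.conj_mem _ hx' _
    have hUq : IsPGroup q U := by
      rintro ⟨x, hx, hx', hx''⟩
      refine ⟨1, ?_⟩
      rw [pow_one]
      exact Subtype.ext hx''
    obtain ⟨k, hk⟩ := IsPGroup.iff_card.1 hUq
    have hUb : U = ⊥ := by
      refine h U hUn ?_
      rw [hk]
      exact Nat.Coprime.pow_left k ((Nat.coprime_primes hq hp).2 hqp)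
    obtain ⟨c, hc, hfc⟩ := Subgroup.mem_map.1 (hAK hxb.1)
    have hfcB : f c ∈ B := by
      rw [hfc]
      exact hxb
    have hcq : c ^ q ∈ P := by
      rw [← hf1, map_pow]
      exact hfcB.2
    obtain ⟨k', hk'⟩ := hPp ⟨_, hcq⟩
    have h5 : (c ^ q) ^ (p ^ k') = 1 := congrArg Subtype.val hk'
    have h6 : c ^ (p ^ k') ∈ U := by
      refine ⟨pow_mem hc _, by rw [map_pow]; exact pow_mem hfcB _, ?_⟩
      rw [← pow_mul, mul_comm, pow_mul]
      exact h5
    rw [hUb, Subgroup.mem_bot] at h6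
    have h7 : xb ^ (p ^ k') = 1 := by
      rw [← hfc, ← map_pow, h6, map_one]
    have h8 : orderOf xb ∣ 1 := by
      have h9 : Nat.Coprime q (p ^ k') := Nat.Coprime.pow_right k' ((Nat.coprime_primes hq hp).2 hqp)
      rw [← h9]
      exact Nat.dvd_gcd (orderOf_dvd_of_pow_eq_one hxb.2) (orderOf_dvd_of_pow_eq_one h7)
    exact hxb1 (orderOf_eq_one_iff.1 (Nat.dvd_one.1 h8))

/-- the order of a group with a normal subgroup which contains its centralizer -/
theorem card_le_core {Q : Type} [Group Q] [Finite Q] {P : Subgroup Q} [hPn : P.Normal]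
    (h : Subgroup.centralizer (P : Set Q) ≤ P) : Nat.card Q ≤ Nat.card P * Nat.card (MulAut P) := by
  have h1 : (MulAut.conjNormal (H := P)).ker ≤ P := by
    refine le_trans ?_ h
    intro g hg
    rw [MonoidHom.mem_ker] at hg
    rw [Subgroup.mem_centralizer_iff]
    intro x hx
    have h2 : (MulAut.conjNormal (H := P) g ⟨x, hx⟩ : Q) = x := by
      rw [hg]
      rfl
    rw [MulAut.conjNormal_apply] at h2
    have h3 : g * x = x * g := by
      have h4 := congrArg (fun z => z * g) h2
      simp only [inv_mul_cancel_right] at h4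
      exact h4
    exact h3.symm
  have h2 := Subgroup.card_mul_index (MulAut.conjNormal (H := P)).ker
  rw [← h2, Subgroup.index_ker]
  refine Nat.mul_le_mul (Nat.card_le_card_of_injective _ (Subgroup.inclusion_injective h1)) ?_
  exact Nat.card_le_card_of_injective _ (Subtype.val_injective)

theorem oo_index_le {G : Type} [Group G] [Finite G] [Group.IsSolvable G] {p S : ℕ} (hp : p.Prime)
    (hS : ∀ K : Subgroup G, IsPGroup p K → Nat.card K ≤ S) :
    (oo (⊥ : Subgroup G) p).index ≤ S ^ (1 + Nat.log 2 S) := by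
  classical
  have : Fact p.Prime := ⟨hp⟩
  have hMn : (oo (⊥ : Subgroup G) p).Normal := oo_normal inferInstance p
  have hid : oo (oo (⊥ : Subgroup G) p) p = oo ⊥ p := oo_idem inferInstance p
  obtain ⟨P, hPn, hPp, hPc⟩ := core (Q := G ⧸ oo (⊥ : Subgroup G) p) hp (by
    intro N hN hc
    have h1 : N.comap (QuotientGroup.mk' (oo (⊥ : Subgroup G) p)) ≤ oo ⊥ p := by
      have h2 : (oo (⊥ : Subgroup G) p).relIndex (N.comap (QuotientGroup.mk' (oo (⊥ : Subgroup G) p))) = Nat.card N := by
        have h3 := Subgroup.relIndex_comap (⊥ : Subgroup (G ⧸ oo (⊥ : Subgroup G) p))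
          (QuotientGroup.mk' (oo (⊥ : Subgroup G) p)) (N.comap (QuotientGroup.mk' (oo (⊥ : Subgroup G) p)))
        rw [Subgroup.relIndex_bot_left, MonoidHom.comap_bot, QuotientGroup.ker_mk',
          Subgroup.map_comap_eq_self_of_surjective (QuotientGroup.mk'_surjective _) N] at h3
        exact h3
      have h4 := oo_max (M := oo (⊥ : Subgroup G) p) (l := p) (hN.comap (QuotientGroup.mk' (oo (⊥ : Subgroup G) p)))
        (by
          intro x hx
          rw [Subgroup.mem_comap]
          have : QuotientGroup.mk' (oo (⊥ : Subgroup G) p) x = 1 := (QuotientGroup.eq_one_iff x).2 hx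
          rw [this]
          exact one_mem _) (by rw [h2]; exact hc)
      rwa [hid] at h4
    rw [eq_bot_iff]
    intro x hx
    obtain ⟨g, rfl⟩ := QuotientGroup.mk'_surjective _ x
    exact Subgroup.mem_bot.2 ((QuotientGroup.eq_one_iff g).2 (h1 hx)))
  have h1 := card_le_core hPc
  have h2 : Nat.card P ≤ S := by
    obtain ⟨a, ha⟩ := IsPGroup.iff_card.1 hPp
    have h3 : p ^ a ∣ Nat.card G := by
      rw [← ha]
      refine (Subgroup.card_subgroup_dvd_card P).trans ?_
      have h4 := Subgroup.card_mul_index (oo (⊥ : Subgroup G) p)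
      rw [← h4]
      exact Dvd.intro_left _ rfl
    obtain ⟨K, hK⟩ := Sylow.exists_subgroup_card_pow_prime p h3
    rw [ha, ← hK]
    exact hS K (IsPGroup.of_card hK)
  have h3 : (oo (⊥ : Subgroup G) p).index = Nat.card (G ⧸ oo (⊥ : Subgroup G) p) := rfl
  rw [h3, pow_add, pow_one]
  refine h1.trans (Nat.mul_le_mul h2 (card_aut.trans ?_))
  have hpos : 0 < Nat.card P := Nat.card_pos
  exact (Nat.pow_le_pow_right hpos (Nat.log_mono_right h2)).trans (Nat.pow_le_pow_left h2 _)

end Pool.Agent.H79.SL
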